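import Mathlib
import Pool.Agent.helper70.LE.Defs3

/-!
# Project LE (MP_baa4d7_al), BOUND-Z: `l(B) ≤ p q ^ 2`, `q = |D : ⟨z⟩|`, for every `z ∈ D`; interface

The hypothesis `HBE p c` depends on `D` only: NO condition on the inertial quotient.
-/

set_option autoImplicit false

namespace Pool.Agent.LE

open Pool.Agent.helper58.DC Pool.Agent.DI Pool.Agent.GR Pool.Agent.OB Pool.Agent.DR Pool.Agent.FI Pool.Agent.FI3 Pool.Agent.FI4

/-- The exponent of `D` is at least `p ^ c`, and `p |D| ^ 2 ≤ p ^ (3 c)`. -/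
def HBE (p c : ℕ) : HP := fun _ _ _ D _ => (∃ z ∈ D, z ^ p ^ (c - 1) ≠ 1) ∧ p * Nat.card D ^ 2 ≤ p ^ (3 * c)

/-- **BDZ** (the bound). -/
def BDZ_stmt : Prop :=
  ∀ (p : ℕ) (M : Ideal (integralClosure ℤ ℂ)), Setup p M → p ≠ 2 → ∀ c : ℕ, 1 ≤ c → BDH p M (HBE p c) (p ^ c)

/-- **HEZ** (short; Mathlib, compare `helper58/LE/HHE`). Heredity. Proof: `D.subgroupOf N ≃* D` for `D ≤ N` (`Subgroup.subgroupOfEquivOfLe`), `cjS g D` is the image of `D` under `MulAut.conj g` (`Nat.card` and the orders of the elements are preserved). -/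
def HEZ_stmt : Prop :=
  ∀ (p : ℕ), p.Prime → ∀ c : ℕ, Her p (HBE p c) ∧ Her p (HAnd (HBE p c) (HWE p c)) ∧ Her p (HAnd (HBE p c) (HZE p)) ∧
    Her p (HAnd (HAnd (HBE p c) (HWE p c)) (HZE p))

/-- **Z2L** (short; from BDZ, HEZ, NIL, DVZ and `gMNG`; COPY of `P2L`, `helper58/LE/P2L.lean`). Part 2: all groups. -/
def Z2L_stmt : Prop :=
  ∀ (p : ℕ) (M : Ideal (integralClosure ℤ ℂ)), Setup p M → p ≠ 2 → ∀ c : ℕ, 1 ≤ c → MNH p M (HAnd (HBE p c) (HWE p c))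

end Pool.Agent.LE
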