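import Mathlib
import Pool.Agent.helper70.LZ.DefsZ
import Pool.Agent.helper70.LE.SpecN
import Pool.Agent.helper83.LE.SpecB
import Pool.Agent.helper70.FI.SpecQ1
import Pool.Agent.helper1.FI4.SpecHT

/-!
# Project LE (MP_baa4d7_al), block BOUND-Z: `l(B) ≤ p q ^ 2`, `q = |D : ⟨z⟩|`, for every `z ∈ D`

OUTPUT: `BDZ_stmt` of `helper70/LZ/DefsZ`. No condition on the inertial quotient, no regular elements, no heights.

IDEA. `K = C_G(z)`, `b = b(θ)^K`, `η₀ ∈ b` with `cc θ (kap η₀) ∉ M` (ZX0). For `ψ ∈ B` let `az ψ u = |K|⁻¹ ∑ ψ(u v) η₀(v⁻¹)` (`v ∈ K` `p`-regular), `u` a generator of `⟨z⟩`. (1) `∑_{ψ ∈ B} |az ψ u|² = EE η₀ η₀ ≤ p^(-e)`, `p^e = o(z)` (ZNR, ZE0);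
(2) `∑_{ψ ∈ B} az ψ (z^i) conj (az ψ (z^j)) = 0` for `i ≡ j` modulo `p`, `z^i ≠ z^j` (ZOR, ZTS); (3) `az ψ (z^i) = az ψ (z^j)` for `ψ ∈ X` (`PR m ψ`), `i ≡ j` modulo `p` (ZGA). So `p^(e-1) ∑_{ψ ∈ X} |az ψ u|² ≤ p^(-e)` (ZPR, pure). (4) `|D| az ψ (z^s) = P(ζ^s)` with
`P ∈ ℤ[X]` (ZPL, from ZL5: `|D| EE η η₀ ∈ ℤ`), and it is not `0` for ALL `ψ ∈ B` (ZNV), so the mean of its square is at least `1` (ZNG). Hence `|X| ≤ |D|² p^(1-2e)` (ZBX), and `l(B) ≤ |X|` (CNL of `helper83/LE/SpecB`).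

RULES. File `Pool/Agent/<seat>/LZ/XXX.lean` (directory LZ) with

  import Pool.Agent.helper70.LZ.SpecZ
  set_option autoImplicit false
  namespace Pool.Agent.LE
  open Pool.Agent.helper58.DC Pool.Agent.DI Pool.Agent.GR Pool.Agent.OB Pool.Agent.DR Pool.Agent.FI Pool.Agent.FI3 Pool.Agent.FI4
  theorem XXX (hYYY : YYY_stmt) ... : XXX_stmt := ...
  end Pool.Agent.LE

auxiliary lemmas prefixed `XXX_`, no sorry, no double quotes in the file, no `convert`, no `congr!`. The rows named in the docstring are hypotheses; all rows of the older specs may be added as further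
hypotheses (no circles; all are proved): `helper59/FI4/SpecP4` (`QCN4 QFU4 FRA4 ..`), `helper83/FI/SpecR` (`RGM ZEA ..`), `helper22/FI/SpecA` (`BLE SBI EXB STC TPR BRY MLT ..`), `helper70/FI/SpecQ1` (`QRS QCE QEI QEV QRP QIT ..`), `helper58/FI/SpecC` (`FEQ FSI FOV ..`),
`helper83/LE/SpecB` (`GM2 GP2 CNL ..`), `helper1/FI4/SpecHT` (`NRC DPX ..`), GR (`CVF EXP IDM BR0 BR2 SFC PPT ..`), DR, DI (`B2 C3 ..`). Ready lemmas: `helper59/FI/Base` (`cz_sup_zpowers TRNb SB_conj mem_Cz cz_mono ..`).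
-/

set_option autoImplicit false

namespace Pool.Agent.LE

open Pool.Agent.helper58.DC Pool.Agent.DI Pool.Agent.GR Pool.Agent.OB Pool.Agent.DR Pool.Agent.FI Pool.Agent.FI3 Pool.Agent.FI4

section

variable {G : Type} [Group G]

open Classical in
/-- `v ↦ η(v⁻¹)` on the `p`-regular elements of `K`, `0` elsewhere. -/
noncomputable def kap (p : ℕ) (K : Subgroup G) (η : G → ℂ) : G → ℂ := fun v => if v ∈ K ∧ PReg p v then η v⁻¹ else 0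

/-- `|K|⁻¹ ∑ ψ(u v) η(v⁻¹)`, over the `p`-regular `v ∈ K`. -/
noncomputable def az (p : ℕ) (K : Subgroup G) (η ψ : G → ℂ) (u : G) : ℂ :=
  (∑ᶠ v ∈ {v : G | v ∈ K ∧ PReg p v}, ψ (u * v) * η v⁻¹) / Nat.card K

/-- The number `A_g = θ(1)⁻¹ ∑_x θ(x) kap(z⁻¹ g⁻¹ x g)`. -/
noncomputable def ag (p : ℕ) (K : Subgroup G) (η θ : G → ℂ) (z g : G) : ℂ :=
  cc θ (fun x => kap p K η (z⁻¹ * (g⁻¹ * x * g)))

/-- The centraliser of `⟨z⟩` in the two notations. -/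
theorem cz_zp (z : G) : cz (Subgroup.zpowers z) = Cz (⊤ : Subgroup G) z := by
  unfold Cz
  rw [top_inf_eq]
  ext x
  simp only [Subgroup.mem_centralizer_iff, Set.mem_singleton_iff, forall_eq]
  constructor
  · intro h
    exact h z (Subgroup.mem_zpowers z)
  · rintro h y ⟨k, rfl⟩
    exact (Commute.zpow_left (show Commute z x from h) k)

end

/-! ## 1. Integrality: `|D| EE η η' ∈ ℤ` for `η` in the block `b(θ)^K` -/

/-- **ZRG** (short to medium). Products of characters. Proof: `κ * η` (on `K`) is the character of the tensor product of two representations of the group `K` (Mathlib: `Representation.tprod`, `FDRep.char_tensor` or `LinearMap.trace_tensorProduct'`); QRP. (`IrrOn K`: extension by zero of `Irr K`; see QEV for the translation.) -/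
def ZRG_stmt : Prop :=
  ∀ (G : Type) [Group G] [Finite G] (K : Subgroup G), ∀ κ ∈ IrrOn K, ∀ η ∈ IrrOn K,
    ∃ m : (G → ℂ) → ℕ, ∀ x ∈ K, κ x * η x = ∑ᶠ ψ ∈ IrrOn K, (m ψ : ℂ) * ψ x

/-- **ZL1** (medium; from QEV, B2, IDM/EXP of GR). Brauer's lemma. Proof: `S` a Sylow `q`-subgroup of `C_K(x)` (a `q`-subgroup of `K`, all elements commute with `x`, `q ∤ |C_K(x)| / |S|`). `i g = |S|⁻¹` for `g ∈ S`, `0` otherwise: `cv i i = i`, `Inv (zpowers x) i`. QEV for `H = K`, `H' = zpowers x`: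
`ev η i x⁻¹` is a combination with natural coefficients of values of characters: integral. `c η = ev η i x⁻¹ = |S|⁻¹ ∑_{s ∈ S} η (x⁻¹ s)` for `η ∈ IrrOn K` (`0` otherwise). `∑_η c η * η y = |S|⁻¹ ∑_{s ∈ S} ∑_η η y * η (x s)⁻¹` (replace `s` by `s⁻¹`; `(x s)⁻¹ = x⁻¹ s⁻¹`), and `∑_{η ∈ IrrOn K} η y * η w⁻¹`
is `|C_K(w)|` if `y`, `w` are conjugate in `K` and `0` otherwise (second orthogonality: IDM, last item, for `S = IrrOn K`, where `eS K (IrrOn K) = dl` by EXP: the sum is the number of the `z ∈ K` with `z⁻¹ y⁻¹ z w = 1`). So it is not `0` only if `y` is conjugate to some `x s`. For `y = x`: `x s` is conjugate to `x` only for `s = 1`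
(orders: `orderOf (x s) = orderOf x * orderOf s`), value `|C_K(x)| / |S| = n`. -/
def ZL1_stmt : Prop :=
  ∀ q : ℕ, q.Prime → ∀ (G : Type) [Group G] [Finite G] (K : Subgroup G), ∀ x ∈ K, ¬ q ∣ orderOf x →
    ∃ (c : (G → ℂ) → ℂ) (n : ℕ), ¬ q ∣ n ∧ (∀ η, IsIntegral ℤ (c η)) ∧ ∑ᶠ η ∈ IrrOn K, c η * η x = (n : ℂ) ∧
      ∀ y ∈ K, ∑ᶠ η ∈ IrrOn K, c η * η y ≠ 0 → ∃ k ∈ K, ∃ s ∈ K, PEl q s ∧ s * x = x * s ∧ k * y * k⁻¹ = x * s

/-- **ZL2** (medium; from ZL1, ZRG, TPR-type congruence `ψ (u v) ≡ ψ v`, B2). Proof. Let `R` be a set of representatives of the `K`-classes of the elements of `K` of order prime to `p q`, and `Φ y = ∑_{x ∈ R} ∑_η c_x η * η y` (ZL1 for the prime `q`). (a) `y ∈ K` not `p`-regular: `Φ y = 0` (`y` conjugate to `x s` would be `p`-regular: `q ≠ p`).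
(b) `y ∈ K` `p`-regular, `y = s' y'` with the `q`-part `s'`, `y'` of order prime to `p q`, conjugate to exactly one `x ∈ R`: only this `x` contributes (the `q'`-part of a conjugate of `x s` is a conjugate of `x`), and `∑_η c_x η * η y` is congruent modulo `M'` to `∑_η c_x η * η y' = n_x` (`η y - η y' ∈ M'` for the `q`-element `s'`, Setup q M'), so
`¬ InM M' (Φ y)` (`InM.natCast`). Let `V` be the finite set of the non zero values of `Φ` on `K`, `P = ∏_{α ∈ V} (X - α)`, `a₀ = P(0) = ± ∏ α`: integral, not `InM M'` (prime ideal). For all `y ∈ K`: `a₀ - P(Φ y)` is `a₀` if `y` is `p`-regular and `0` otherwise. `a₀ - P(Φ) = ∑_{k ≥ 1} a_k Φ ^ k` with integral `a_k`, and by ZRG all powers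
`Φ ^ k` and products with `η` are combinations of `IrrOn K` with integral coefficients. So `a₀ * EE p K η η' = |K|⁻¹ ∑_{y ∈ K} (a₀ - P(Φ y)) η y * η' y⁻¹` is integral (orthogonality B2). `α = a₀`. -/
def ZL2_stmt : Prop :=
  ∀ p q : ℕ, p.Prime → q.Prime → q ≠ p → ∀ M' : Ideal (integralClosure ℤ ℂ), Setup q M' → ∀ (G : Type) [Group G] [Finite G]
    (K : Subgroup G), ∀ η ∈ IrrOn K, ∀ η' ∈ IrrOn K,
    ∃ α : ℂ, IsIntegral ℤ α ∧ ¬ InM M' α ∧ IsIntegral ℤ (α * EE p K η η')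

/-- **ZL3** (short to medium; from GLP of GR or the fact that the values are sums of `|G|`-th roots of unity, NRC). Rationality. Proof: `n = |G|`, `ζ` a primitive `n`-th root of unity, for every `s` prime to `n` and `ψ ∈ IrrOn K`: `ψ v = P_ψ,v(ζ)`, `ψ (v ^ s) = P_ψ,v(ζ ^ s)` with an integer polynomial (eigenvalues), or use a field automorphism `σ`
with `σ ζ = ζ ^ s` and GLP. `N = |K| EE p K η η' = ∑_v η v * η' v⁻¹ = P(ζ)`, and `P(ζ ^ s) = ∑_v η (v ^ s) * η' (v ^ s)⁻¹ = P(ζ)` because `v ↦ v ^ s` is a permutation of the `p`-regular elements of `K`. So `N` is fixed by the Galois group: `totient n * N = ∑_{μ ∈ primitiveRoots n ℂ} P(μ)` is rational (trace; `Polynomial.aeval` and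
`IsCyclotomicExtension`, as in NRC). -/
def ZL3_stmt : Prop :=
  ∀ p : ℕ, p.Prime → ∀ (G : Type) [Group G] [Finite G] (K : Subgroup G), ∀ η ∈ IrrOn K, ∀ η' ∈ IrrOn K,
    ∃ r : ℚ, EE p K η η' = (r : ℂ)

/-- **ZL4** (short to medium; from `lo.dfl`, B2, C3 of DI; model KHT, `Pool/Agent/*/FI4/KHT.lean`). Proof: `L = cz P`, `lo.dfl P`: `x'` with `DefL p M L η D x'`. As in KHT: `cc η (cls L x') = (|L| / |C_L(x')|) η x' / η 1` is not `InM`, `|C_L(x')|_p = |D|`, `η x'` integral, so `v_p |L| ≤ v_p (η 1) + v_p |D|`, that is `|D| η 1 / |L|` is `IntAt M`.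
`|D| EE p L η η' = (|D| η 1 / |L|) * cc η (kap p L η')`, and `cc η (kap p L η')` is integral (C3 (1), `kap` is a class function of `L` with integral values). -/
def ZL4_stmt : Prop :=
  ∀ (p : ℕ) (M : Ideal (integralClosure ℤ ℂ)), Setup p M → ∀ (G : Type) [Group G] [Finite G]
    (D : Subgroup G) (x : G) (θ χ : G → ℂ), LoA p M D x θ χ → ∀ P ≤ D, ∀ η ∈ Bl M (cz P) θ, ∀ η' ∈ IrrOn (cz P),
    IntAt M ((Nat.card D : ℂ) * EE p (cz P) η η')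

/-- **ZL5** (short; from ZL2, ZL3, ZL4). Proof: `r = |D| EE = a / b` in lowest terms (ZL3). Let the prime `q` divide `b`. `q = p`: `IntAt M r`: `r β = α'`, `β ∉ M`, so `a β = b α' ∈ M`, but `a ∉ M` (`a` prime to `p`, `InM.natCast`) and `β ∉ M`. `q ≠ p`: `q` is not a unit of the ring of algebraic integers, so there is a maximal ideal `M' ∋ q`
(`Setup q M'`); `α` from ZL2: `α r` is integral, `α a = b (α r) ∈ M'`, but `a`, `α` are not in `M'`. So `b = 1`. -/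
def ZL5_stmt : Prop :=
  ∀ (p : ℕ) (M : Ideal (integralClosure ℤ ℂ)), Setup p M → ∀ (G : Type) [Group G] [Finite G]
    (D : Subgroup G) (x : G) (θ χ : G → ℂ), LoA p M D x θ χ → ∀ P ≤ D, ∀ η ∈ Bl M (cz P) θ, ∀ η' ∈ IrrOn (cz P),
    ∃ r : ℤ, (Nat.card D : ℂ) * EE p (cz P) η η' = (r : ℂ)

/-! ## 2. The character `η₀` and the numbers `az` -/

/-- **ZX0** (medium; from ZL1, BLE, SBI, EXB, QEI). There is `η₀ ∈ b(θ)^K` with `cc θ (kap η₀) ∉ M`. Proof: `K = cz P`, `e = eS K (Bl M K θ)`; BLE (`L = K`; `Bq M K K θ = Bl M K θ`): `e` is a class function of `K`, `IntAt`-valued, vanishes at the elements which are not `p`-regular, `cc η e` is `1` for `η ∈ Bl M K θ` and `0` for the other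
`η ∈ IrrOn K`. EXB (`L = K`, `Q = D`; `K ⊓ cz D = cz D`): `ψ ∈ IrrOn K`, `SB M K θ ψ`, so `ψ ∈ Bl M K θ`, and by SBI `cc θ e - 1` is `InM`. For every `p`-regular `x ∈ K` let `c_x`, `n_x` be as in ZL1 (`q = p`); `ψ_x y = ∑_η c_x η * η y` is `0` at all `p`-regular `y ∈ K` not conjugate to `x` (the `p`-element `s` in `k y k⁻¹ = x s` is `1`), and `n_x` at
the conjugates of `x`. So for `p`-regular `v ∈ K`: `e v⁻¹ = ∑_x (e x⁻¹ / n_x) ψ_x v` (`x` in a set of representatives), i.e. `e = ∑_{η ∈ IrrOn K} a_η • kap p K η`, `a_η = ∑_x e x⁻¹ * c_x η / n_x`, `IntAt M`. So `cc θ e = ∑ a_η cc θ (kap η)`. For `η ∉ Bl M K θ` and `ψ ∈ Bl M K θ` `cc ψ (kap η) = |K| EE p K ψ η / ψ 1 = 0` (QEI (2)), so `cc θ (kap η)` is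
`InM` (SBI). If all `cc θ (kap η)`, `η ∈ Bl M K θ`, were `InM` then `cc θ e` would be `InM`: a contradiction. -/
def ZX0_stmt : Prop :=
  ∀ (p : ℕ) (M : Ideal (integralClosure ℤ ℂ)), Setup p M → ∀ (G : Type) [Group G] [Finite G]
    (D : Subgroup G) (x : G) (θ χ : G → ℂ), LoA p M D x θ χ → ∀ P ≤ D,
    ∃ η₀ ∈ Bl M (cz P) θ, ¬ InM M (cc θ (kap p (cz P) η₀))

/-- **ZAX** (short to medium; from QRS, QCE, QEI). Expansion. Proof: `ψ (u v) = ∑_{η ∈ IrrOn K} mt K ψ η * η (u v)` (QRS, `K ≤ ⊤`), `η (u v) = (η u / η 1) η v` (QCE); the sum over the `p`-regular `v ∈ K` of `η v * η₀ v⁻¹` is `|K| EE p K η η₀`, `0` if `η ∉ Bl M K θ` (QEI (2), `BC M K (Bl M K θ)`: BLE or `Q1_BC`). -/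
def ZAX_stmt : Prop :=
  ∀ (p : ℕ) (M : Ideal (integralClosure ℤ ℂ)), Setup p M → ∀ (G : Type) [Group G] [Finite G] (K : Subgroup G) (θ : G → ℂ),
    ∀ η₀ ∈ Bl M K θ, ∀ u ∈ K, Cen K u → ∀ ψ ∈ IrrOn (⊤ : Subgroup G),
    az p K η₀ ψ u = ∑ᶠ η ∈ Bl M K θ, mt K ψ η * (η u / η 1) * EE p K η η₀

/-- **ZPL** (short to medium; from ZAX, ZL5, QRS, QCE; compare DPX, `Pool/Agent/*/FI4/DPX.lean`). Proof: `K = cz (zpowers z)` (`cz_zp`), `u = z ^ s` is central in `K`. `η (z ^ s) / η 1 = (η z / η 1) ^ s`, `(η z / η 1) ^ n = 1`, so `η z / η 1 = ζ ^ e η`. `P = ∑_η m η * r η • X ^ e η`, `m η = mt K ψ η`, `r η = |D| EE p K η η₀ ∈ ℤ`. -/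
def ZPL_stmt : Prop :=
  ∀ (p : ℕ) (M : Ideal (integralClosure ℤ ℂ)), Setup p M → ∀ (G : Type) [Group G] [Finite G]
    (D : Subgroup G) (x : G) (θ χ : G → ℂ), LoA p M D x θ χ → ∀ z ∈ D, ∀ η₀ ∈ Bl M (Cz (⊤ : Subgroup G) z) θ,
    ∀ ψ ∈ IrrOn (⊤ : Subgroup G), ∀ n : ℕ, 0 < n → z ^ n = 1 → ∀ ζ : ℂ, IsPrimitiveRoot ζ n →
    ∃ P : Polynomial ℤ, ∀ s : ℕ, (Nat.card D : ℂ) * az p (Cz (⊤ : Subgroup G) z) η₀ ψ (z ^ s) = Polynomial.aeval (ζ ^ s) P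

/-! ## 3. `az ψ z ≠ 0` -/

/-- **ZTH** (short to medium; from QCN4, BRY, STC, B2). The characters of `b(θ)` vanish outside of the sections of `D`. Proof: `C = cz D`, `u`, `v` are powers of `u v`, so `u ∈ C`, `v ∈ Cz C u`. BRY (`H = C`, `y = u`): `Sf (Bl M C θ) (u v) (u v) = Sf (Bq M C (Cz C u) θ) v v`. The set `Bq M C (Cz C u) θ` is empty: for `η` in it QCN4 (`P = D`, `y = u`) gives
`l ∈ cz D` with `l u l⁻¹ ∈ D`, so `u = l⁻¹ (l u l⁻¹) l ∈ D` (`l` centralises `D`), a contradiction. So `∑_{θ'} θ' (u v) * θ' (u v)⁻¹ = ∑ |θ' (u v)|² = 0`. -/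
def ZTH_stmt : Prop :=
  ∀ (p : ℕ) (M : Ideal (integralClosure ℤ ℂ)), Setup p M → ∀ (G : Type) [Group G] [Finite G]
    (D : Subgroup G) (x : G) (θ χ : G → ℂ), LoA p M D x θ χ → ∀ u v : G, PEl p u → PReg p v → u * v = v * u → u * v ∈ cz D →
    u ∉ D → ∀ θ' ∈ Bl M (cz D) θ, θ' (u * v) = 0

/-- **ZAG** (medium; from ZTH, EXB, SBI, QEI, QCE, FEQ). The numbers `A_g`. Proof: `K = Cz ⊤ z`, `w y = kap p K η₀ (z⁻¹ y)`: a class function of `K` (`z` is central in `K`) with integral values, `w y ≠ 0` only for `y = z v`, `v ∈ K` `p`-regular. `A_g = θ(1)⁻¹ ∑_{x ∈ cz D} θ x * w (g⁻¹ x g)`. (1) `u = g z g⁻¹ ∉ D`: if `w (g⁻¹ x g) ≠ 0` then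
`x = u (g v g⁻¹)` has the `p`-part `u` and `θ x = 0` (ZTH), so `A_g = 0`. (2) `u ∈ D`: let `Q = cjS g⁻¹ D`, `θ' = cjF g⁻¹ θ ∈ IrrOn (cz Q)` (FEQ; `θ' y = θ (g y g⁻¹)`), `z ∈ Q`, so `Q ≤ K`, `cz Q ≤ K` (`Q` is abelian). Substitution: `A_g = cc θ' w`. EXB (`L = K`, `Q`): `ψ' ∈ IrrOn K` with `SB M K θ' ψ'`, so `A_g - cc ψ' w` is `InM`.
`cc ψ' w = ψ'(1)⁻¹ ∑_v ψ' (z v) η₀ v⁻¹ = (ψ' z / ψ' 1) * cc ψ' (kap p K η₀)` (QCE), and `cc ψ' (kap p K η₀) = |K| EE p K ψ' η₀ / ψ' 1`. If not `SB M K θ' θ`, then `ψ' ∉ Bl M K θ` and `EE p K ψ' η₀ = 0` (QEI (2)). If `SB M K θ' θ`, then `ψ' ∈ Bl M K θ`, `cc ψ' (kap η₀) - cc θ (kap η₀)` is `InM` (SBI) and `ψ' z / ψ' 1 - 1` is `InM`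
(a root of unity of `p`-power order, `z` is a `p`-element). -/
def ZAG_stmt : Prop :=
  ∀ (p : ℕ) (M : Ideal (integralClosure ℤ ℂ)), Setup p M → ∀ (G : Type) [Group G] [Finite G]
    (D : Subgroup G) (x : G) (θ χ : G → ℂ), LoA p M D x θ χ → ∀ z ∈ D, ∀ η₀ ∈ Bl M (Cz (⊤ : Subgroup G) z) θ, ∀ g : G,
    ((g * z * g⁻¹ ∉ D ∨ ¬ SB M (Cz (⊤ : Subgroup G) z) (cjF g⁻¹ θ) θ) → InM M (ag p (Cz (⊤ : Subgroup G) z) η₀ θ z g)) ∧
    (g * z * g⁻¹ ∈ D → SB M (Cz (⊤ : Subgroup G) z) (cjF g⁻¹ θ) θ →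
      InM M (ag p (Cz (⊤ : Subgroup G) z) η₀ θ z g - cc θ (kap p (Cz (⊤ : Subgroup G) z) η₀)))

/-- **ZCT** (medium; from QFU4, EXB, FEQ, FRA4). The set of the `g` with `A_g ∉ M` is `T K`. Proof: `K = Cz ⊤ z`, `T = TT M D θ`. `⊇`: `g = t k`: `g z g⁻¹ = t z t⁻¹ ∈ D`, `cjF g⁻¹ θ = cjF k⁻¹ (cjF t⁻¹ θ)`, `SB M (cz D) (cjF t⁻¹ θ) θ` gives `SB M K (cjF t⁻¹ θ) θ` (`Q1_mono`, `cz D ≤ K`), and conjugation by `k ∈ K` does not change the block of `K`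
(FEQ / `SB_conj`). `⊆`: `ψ ∈ IrrOn K` with `SB M K θ ψ` (EXB). `SB M K (cjF g⁻¹ θ) ψ`, conjugate by `g`: `SB M (cjS g K) θ (cjF g ψ)`, `cjS g K = Cz ⊤ (g z g⁻¹)`. QFU4 (`P = ⊥`, `cz ⊥ = ⊤`, `u = z`, `l = g`): `k' ∈ Cz ⊤ (g z g⁻¹)`, `t = k' g ∈ T`. `t z t⁻¹ = g z g⁻¹`, `g = k'⁻¹ t = t (t⁻¹ k'⁻¹ t)`, `t⁻¹ k'⁻¹ t ∈ K`. The number of elements of `T K` is
`|T| |K| / |T ⊓ K| = N |K|`, `N = |T : T ⊓ K|`, a divisor of `|T : cz D| = iI M D θ` (`cz D ≤ T ⊓ K`), prime to `p` (`lo.bet`). -/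
def ZCT_stmt : Prop :=
  ∀ (p : ℕ) (M : Ideal (integralClosure ℤ ℂ)), Setup p M → ∀ (G : Type) [Group G] [Finite G]
    (D : Subgroup G) (x : G) (θ χ : G → ℂ), LoA p M D x θ χ → ∀ z ∈ D, ∃ N : ℕ, ¬ p ∣ N ∧
    {g : G | g * z * g⁻¹ ∈ D ∧ SB M (Cz (⊤ : Subgroup G) z) (cjF g⁻¹ θ) θ}.ncard = N * Nat.card (Cz (⊤ : Subgroup G) z)

/-- **ZNV** (medium; from ZAG, ZCT, SBI, B2). Proof: `K = Cz ⊤ z`, `w y = kap p K η₀ (z⁻¹ y)`, invariant under conjugation by `K`, so for fixed `x` the number `w (g⁻¹ x g)` depends only on the coset `g K`. `W x = ∑_{cosets g K} w (g⁻¹ x g)` (`= |K|⁻¹ ∑_g w (g⁻¹ x g)`): a class function of `⊤` with integral values.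
`cc ψ W = |K|⁻¹ |G| (∑_x w x * ψ x) / ψ 1 = |G| az p K η₀ ψ z / ψ 1` (`ψ` is a class function of `G`; `∑_x w x * ψ x = ∑_v ψ (z v) η₀ v⁻¹`). Suppose `az = 0`; `SB M ⊤ ψ θ` gives `InM (cc θ W)`. `cc θ W = ∑_{cosets} A_g` (`A_g = ag ..` depends only on `g K`: `|K| cc θ W = ∑_g A_g`; sum over representatives). By ZAG it is modulo `InM` the number of the cosets in the
set of ZCT times `cc θ (kap η₀)`, i.e. `N cc θ (kap η₀)` (that set is a union of cosets `g K`, as it is `{g | g z g⁻¹ ∈ D ∧ SB ..}`), `N` prime to `p`: so `InM (cc θ (kap η₀))`, a contradiction. -/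
def ZNV_stmt : Prop :=
  ∀ (p : ℕ) (M : Ideal (integralClosure ℤ ℂ)), Setup p M → ∀ (G : Type) [Group G] [Finite G]
    (D : Subgroup G) (x : G) (θ χ : G → ℂ), LoA p M D x θ χ → ∀ z ∈ D, ∀ η₀ ∈ Bl M (Cz (⊤ : Subgroup G) z) θ,
    ¬ InM M (cc θ (kap p (Cz (⊤ : Subgroup G) z) η₀)) → ∀ ψ ∈ Bl M (⊤ : Subgroup G) θ, az p (Cz (⊤ : Subgroup G) z) η₀ ψ z ≠ 0

/-! ## 4. Norms and orthogonality -/

/-- **ZNR** (short to medium; from BRY, BLE, QEI, STC, B2). The norm. Proof: `K = Cz ⊤ u`, `S = Bl M ⊤ θ`. `conj (az ψ u) = |K|⁻¹ ∑_{v'} ψ (u v')⁻¹ * η₀ v'` (STC). `∑_{ψ ∈ S} |az ψ u|² = |K|⁻² ∑_{v, v'} η₀ v⁻¹ * η₀ v' * Sf S (u v) (u v')`, `Sf S (u v) (u v') = Sf (Bq M ⊤ K θ) v v'` (BRY, `H = ⊤`), so it is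
`∑_{η ∈ Bq M ⊤ K θ} EE p K η η₀ * EE p K η₀ η = EE p K η₀ η₀` (QEI (1) for the union of blocks `Bq M ⊤ K θ` (BLE), `η₀` in it). -/
def ZNR_stmt : Prop :=
  ∀ (p : ℕ) (M : Ideal (integralClosure ℤ ℂ)), Setup p M → ∀ (G : Type) [Group G] [Finite G] (θ : G → ℂ) (u : G), PEl p u →
    ∀ η₀ ∈ IrrOn (Cz (⊤ : Subgroup G) u), SB M (⊤ : Subgroup G) η₀ θ →
    ∑ᶠ ψ ∈ Bl M (⊤ : Subgroup G) θ, az p (Cz (⊤ : Subgroup G) u) η₀ ψ u * (starRingEnd ℂ) (az p (Cz (⊤ : Subgroup G) u) η₀ ψ u) =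
      EE p (Cz (⊤ : Subgroup G) u) η₀ η₀

/-- **ZOR** (medium; from BR0, BRY, BLE, QEI, QCJ, FEQ, SFC, STC, B2). Orthogonality. Proof: as ZNR: the sum is `|K|⁻² ∑_{v, v'} η₀ v⁻¹ * η₀ v' * Sf S (u v) (u' v')`. If `u`, `u'` are not conjugate: `Sf S (u v) (u' v') = 0` (BR0 for `H = ⊤`). Let `g u g⁻¹ = u'`; `g` normalises `K` (`cjS g K = Cz ⊤ u' = K`). `Sf S (u v) (u' v') = Sf S (u' (g v g⁻¹)) (u' v')` (SFC (1)) `=
Sf (Bq M ⊤ K θ) (g v g⁻¹) v'` (BRY). So the sum is `∑_{η ∈ Bq M ⊤ K θ} (|K|⁻¹ ∑_v η (g v g⁻¹) * η₀ v⁻¹) * EE p K η₀ η`, and with `y = g v g⁻¹` the first factor is `EE p K η (cjF g η₀)`. If both factors are not `0` then `SB M K η η₀` and `SB M K η (cjF g η₀)` (QEI (2) for the blocks), so `SB M K (cjF g η₀) η₀`, which is excluded. -/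
def ZOR_stmt : Prop :=
  ∀ (p : ℕ) (M : Ideal (integralClosure ℤ ℂ)), Setup p M → ∀ (G : Type) [Group G] [Finite G] (θ : G → ℂ) (K : Subgroup G) (u u' : G),
    PEl p u → PEl p u' → Cz (⊤ : Subgroup G) u = K → Cz (⊤ : Subgroup G) u' = K →
    ∀ η₀ ∈ IrrOn K, SB M (⊤ : Subgroup G) η₀ θ → (∀ g : G, g * u * g⁻¹ = u' → ¬ SB M K (cjF g η₀) η₀) →
    ∑ᶠ ψ ∈ Bl M (⊤ : Subgroup G) θ, az p K η₀ ψ u * (starRingEnd ℂ) (az p K η₀ ψ u') = 0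

/-- **ZTS** (short to medium; from QFU4, FRA4). Fusion. Proof: `u = z ^ i`, `u' = z ^ j`, both generate `⟨z⟩`, so `Cz ⊤ u = Cz ⊤ u' = K`. QFU4 (`P = ⊥`, `l = g`, `ψ = η₀`): `k ∈ Cz ⊤ u'`, `t = k g ∈ TT M D θ`, `t u t⁻¹ = u'`. Let `u' = u ^ s` with `s ≡ 1` modulo `p` (`s i ≡ j` modulo `orderOf z`, a power of `p`; if `p ∣ orderOf z`). `t ^ N ∈ cz D` for
`N = iI M D θ` (index of a normal subgroup of `TT`), so `u ^ (s ^ N) = u`; `p ∤ N` (`lo.bet`), `s ≡ 1` modulo `p`: `s ≡ 1` modulo `orderOf u` (a power of `p`; the order of `s` modulo it is a power of `p` and divides `N`). So `u' = u`. -/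
def ZTS_stmt : Prop :=
  ∀ (p : ℕ) (M : Ideal (integralClosure ℤ ℂ)), Setup p M → ∀ (G : Type) [Group G] [Finite G]
    (D : Subgroup G) (x : G) (θ χ : G → ℂ), LoA p M D x θ χ → ∀ z ∈ D, ∀ η₀ ∈ Bl M (Cz (⊤ : Subgroup G) z) θ,
    ∀ i j : ℕ, ¬ p ∣ i → i ≡ j [MOD p] → ∀ g : G, g * z ^ i * g⁻¹ = z ^ j → SB M (Cz (⊤ : Subgroup G) z) (cjF g η₀) η₀ → z ^ i = z ^ j

/-- **ZGA** (short; from GP2). Proof: `K = Cz ⊤ z`. `z ^ j = (z ^ i) ^ s` for some `s ≡ 1` modulo `p` (`s i ≡ j` modulo `orderOf z`, a power of `p`, `p ∤ i`, `i ≡ j`; if `orderOf z = 1` take `s = 1`). GP2 for `z ^ i` and the `p`-regular `v ∈ K`. -/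
def ZGA_stmt : Prop :=
  ∀ (p : ℕ), p.Prime → ∀ (G : Type) [Group G] [Finite G] (m : ℕ), Gm2 p (Nat.card G) m → ∀ ψ : G → ℂ, PR m ψ → ∀ z : G, PEl p z →
    ∀ (η₀ : G → ℂ) (i j : ℕ), ¬ p ∣ i → i ≡ j [MOD p] →
    az p (Cz (⊤ : Subgroup G) z) η₀ ψ (z ^ i) = az p (Cz (⊤ : Subgroup G) z) η₀ ψ (z ^ j)

/-- **ZE0** (short to medium; from QCE, B2, STC). Proof: `|K| = ∑_{h ∈ K} |η₀ h|²` (B2), at least the sum over the distinct elements `z ^ k v`, `k < p ^ e`, `v ∈ K` `p`-regular (`z` central in `K`; the `p`-part of `z ^ k v` is `z ^ k`), where `|η₀ (z ^ k v)| = |η₀ v|` (QCE): `|K| ≥ p ^ e |K| EE p K η₀ η₀`. -/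
def ZE0_stmt : Prop :=
  ∀ (p : ℕ), p.Prime → ∀ (G : Type) [Group G] [Finite G] (K : Subgroup G), ∀ z ∈ K, Cen K z → ∀ e : ℕ, orderOf z = p ^ e →
    ∀ η₀ ∈ IrrOn K, ∃ r : ℝ, EE p K η₀ η₀ = (r : ℂ) ∧ 0 ≤ r ∧ (p : ℝ) ^ e * r ≤ 1

/-- **ZPR** (short to medium; pure). Proof: `S = ∑_{ψ ∈ X} ‖a i ψ‖²` does not depend on `i`. Let `c ψ = conj (a 0 ψ)` for `ψ ∈ X` and `0` otherwise, `b ψ = ∑_i a i ψ`. `∑_ψ c ψ * b ψ = n S`; `∑_ψ ‖c ψ‖² = S`; `∑_ψ ‖b ψ‖² = ∑_i ∑_ψ ‖a i ψ‖² ≤ n E` (orthogonality). Cauchy-Schwarz: `n² S² ≤ S n E`, so `n S ≤ E`. -/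
def ZPR_stmt : Prop :=
  ∀ (B : Type) [Fintype B] (X : Finset B) (n : ℕ) (a : Fin n → B → ℂ) (E : ℝ), 0 ≤ E → (∀ i, ∑ ψ, ‖a i ψ‖ ^ 2 ≤ E) →
    (∀ i j, i ≠ j → ∑ ψ, a i ψ * (starRingEnd ℂ) (a j ψ) = 0) → (∀ i j, ∀ ψ ∈ X, a i ψ = a j ψ) →
    ∀ i, (n : ℝ) * ∑ ψ ∈ X, ‖a i ψ‖ ^ 2 ≤ E

/-- **ZNG** (short to medium; pure; from NRC; the second half of NAG, `Pool/Agent/*/FI4/NAG.lean`). Proof: the product of the `aeval μ P` is an integer (NRC), not `0`, so of absolute value at least `1`; arithmetic and geometric mean for the `‖aeval μ P‖ ^ 2`; there are `Nat.totient n` primitive roots. -/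
def ZNG_stmt : Prop :=
  ∀ n : ℕ, 0 < n → ∀ P : Polynomial ℤ, (∀ μ ∈ primitiveRoots n ℂ, Polynomial.aeval μ P ≠ 0) →
    (Nat.totient n : ℝ) ≤ ∑ μ ∈ primitiveRoots n ℂ, ‖Polynomial.aeval μ P‖ ^ 2

/-- **ZBX** (medium; from ZX0, ZPL, ZNV, ZNR, ZOR, ZTS, ZGA, ZE0, ZPR, ZNG). Proof: `K = Cz ⊤ z`, `η₀` from ZX0 (`P = zpowers z`, `cz_zp`), `B = Bl M ⊤ θ`, `X` its elements with `PR m`. Let `s` be prime to `p`. The exponents `j i = s + p i`, `i < p ^ (e - 1)`, give distinct elements `z ^ (j i)`, each with `Cz ⊤ (z ^ (j i)) = K`. `a i ψ = az ψ (z ^ (j i))`: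
norm `EE p K η₀ η₀ ≤ p ^ (-e)` (ZNR, ZE0; `SB M ⊤ η₀ θ`: `Q1_mono`), orthogonal for `i ≠ i'` (ZOR, ZTS), constant in `i` for `ψ ∈ X` (ZGA). ZPR with `n = p ^ (e - 1)`: `p ^ (e - 1) ∑_{ψ ∈ X} ‖az ψ (z ^ s)‖² ≤ p ^ (-e)`. Sum over the `s < p ^ e` prime to `p` (`totient (p ^ e)` of them). For `ψ ∈ X`, with `ζ` a primitive `p ^ e`-th root of unity, the numbers
`|D| az ψ (z ^ s) = P(ζ ^ s)` (ZPL; `s ↦ ζ ^ s` is a bijection onto the primitive roots), all not `0` (ZNV for `z ^ s` in place of `z`: `Cz ⊤ (z ^ s) = K`), so `∑_s |D|² ‖az ψ (z ^ s)‖² ≥ totient (p ^ e)` (ZNG). Together: `|X| totient ≤ |D|² totient p ^ (1 - 2 e)`. -/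
def ZBX_stmt : Prop :=
  ∀ (p : ℕ) (M : Ideal (integralClosure ℤ ℂ)), Setup p M → ∀ (G : Type) [Group G] [Finite G]
    (D : Subgroup G) (x : G) (θ χ : G → ℂ), LoA p M D x θ χ → ∀ z ∈ D, ∀ e : ℕ, 1 ≤ e → orderOf z = p ^ e →
    ∀ m : ℕ, Gm2 p (Nat.card G) m →
    {ψ : G → ℂ | ψ ∈ Bl M (⊤ : Subgroup G) θ ∧ PR m ψ}.ncard * p ^ (2 * e) ≤ p * Nat.card D ^ 2

/-! **BDZ** is stated in `DefsZ` (short; from LOA, GM2, CNL, LLN, ZBX, CFX or TPR for `Blk M χ ⊤ = Bl M ⊤ θ`). Proof: `LoA` by LOA, `m` by GM2, `LL p M χ ⊤ = l`, `1 ≤ l` (LLN; the block is not empty: `χ`), CNL: `l ≤ |X|`. `z ∈ D` with `z ^ p ^ (c - 1) ≠ 1`: `orderOf z = p ^ e`, `c ≤ e`. ZBX: `|X| p ^ (2 e) ≤ p |D| ^ 2 ≤ p ^ (3 c)`, so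
`|X| p ^ (2 c) ≤ p ^ (3 c)`, `|X| ≤ p ^ c`.

**HEZ**, **Z2L** are stated in `DefsZ`. -/

end Pool.Agent.LE
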