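import Mathlib
import Pool.Agent.helper70.LZ.SpecZ

set_option autoImplicit false

namespace Pool.Agent.LE

open Pool.Agent.helper58.DC Pool.Agent.DI Pool.Agent.GR Pool.Agent.OB Pool.Agent.DR Pool.Agent.FI Pool.Agent.FI3 Pool.Agent.FI4

theorem ZBX_Cz {G : Type} [Group G] (z : G) (j : ℕ) (h : (j).Coprime (orderOf z)) :
    Cz (⊤ : Subgroup G) (z ^ j) = Cz (⊤ : Subgroup G) z := by
  obtain ⟨k, hk⟩ := exists_pow_eq_self_of_coprime h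
  ext x
  rw [mem_Cz, mem_Cz]
  refine ⟨fun h1 => ⟨h1.1, ?_⟩, fun h1 => ⟨h1.1, ?_⟩⟩
  · have h2 : Commute (z ^ j) x := h1.2
    have h3 := h2.pow_left k
    rw [hk] at h3
    exact h3
  · have h2 : Commute z x := h1.2
    exact h2.pow_left j

theorem ZBX_sum {G : Type} [Group G] (B : Set (G → ℂ)) (hB : B.Finite) (f : (G → ℂ) → ℂ) :
    letI := hB.fintype
    ∑ᶠ ψ ∈ B, f ψ = ∑ ψ : B, f ψ.1 := by
  letI := hB.fintype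
  rw [← finsum_set_coe_eq_finsum_mem, finsum_eq_sum_of_fintype]

/-- The estimate for one exponent `s`. -/
theorem ZBX_one (hZNR : ZNR_stmt) (hZOR : ZOR_stmt) (hZTS : ZTS_stmt) (hZGA : ZGA_stmt) (hZE0 : ZE0_stmt) (hZPR : ZPR_stmt)
    (p : ℕ) (M : Ideal (integralClosure ℤ ℂ)) (hS : Setup p M) (G : Type) [Group G] [Finite G]
    (D : Subgroup G) (x : G) (θ χ : G → ℂ) (lo : LoA p M D x θ χ) (z : G) (hz : z ∈ D) (e : ℕ) (he : 1 ≤ e)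
    (ho : orderOf z = p ^ e) (m : ℕ) (hm : Gm2 p (Nat.card G) m) (η₀ : G → ℂ)
    (hη : η₀ ∈ Bl M (Cz (⊤ : Subgroup G) z) θ) (s : ℕ) (hs : ¬ p ∣ s)
    (X : Finset (G → ℂ)) (hX : ∀ ψ ∈ X, ψ ∈ Bl M (⊤ : Subgroup G) θ ∧ PR m ψ) :
    (p : ℝ) ^ (2 * e - 1) * ∑ ψ ∈ X, ‖az p (Cz (⊤ : Subgroup G) z) η₀ ψ (z ^ s)‖ ^ 2 ≤ 1 := by
  classical
  have hp : p.Prime := hS.pr
  have hfin : (Bl M (⊤ : Subgroup G) θ).Finite := (IrrOn_fin (⊤ : Subgroup G)).subset fun ψ h => h.1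
  letI : Fintype (Bl M (⊤ : Subgroup G) θ) := hfin.fintype
  have hzK : z ∈ Cz (⊤ : Subgroup G) z := mem_Cz.2 ⟨Subgroup.mem_top z, rfl⟩
  have hcen : Cen (Cz (⊤ : Subgroup G) z) z := fun l hl => (mem_Cz.1 hl).2.symm
  have hP : PEl p z := ⟨e, by rw [← ho]; exact pow_orderOf_eq_one z⟩
  have hcK : cz D ≤ Cz (⊤ : Subgroup G) z := by
    rw [← cz_zp z]
    exact cz_mono ((Subgroup.zpowers_le).2 hz)
  have hSB : SB M (⊤ : Subgroup G) η₀ θ :=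
    Q1_mono le_top hη.1.1 (fun y hy => lo.rt.th.1 y fun h => hy (hcK h)) hη.2
  obtain ⟨r, hr, hr0, hr1⟩ := hZE0 p hp G (Cz (⊤ : Subgroup G) z) z hzK hcen e ho η₀ hη.1
  have hcop : ∀ j : ℕ, ¬ p ∣ j → j.Coprime (orderOf z) := fun j hj => by
    rw [ho]
    exact Nat.Coprime.pow_right e (((Nat.Prime.coprime_iff_not_dvd hp).2 hj).symm)
  have hCz : ∀ j : ℕ, ¬ p ∣ j → Cz (⊤ : Subgroup G) (z ^ j) = Cz (⊤ : Subgroup G) z := fun j hj =>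
    ZBX_Cz z j (hcop j hj)
  have hPj : ∀ j : ℕ, PEl p (z ^ j) := fun j => by
    obtain ⟨k, hk⟩ := hP
    exact ⟨k, by rw [← pow_mul, mul_comm, pow_mul, hk, one_pow]⟩
  have hj : ∀ i : Fin (p ^ (e - 1)), ¬ p ∣ s + p * (i : ℕ) := fun i h =>
    hs ((Nat.dvd_add_left (dvd_mul_right p _)).1 h)
  have hpe : p ^ e = p * p ^ (e - 1) := by
    rw [← pow_succ']
    congr 1
    omega
  have hn0 : 0 < p ^ (e - 1) := pow_pos hp.pos _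
  let a : Fin (p ^ (e - 1)) → (Bl M (⊤ : Subgroup G) θ) → ℂ := fun i ψ =>
    az p (Cz (⊤ : Subgroup G) z) η₀ ψ.1 (z ^ (s + p * (i : ℕ)))
  let X' : Finset (Bl M (⊤ : Subgroup G) θ) := Finset.univ.filter fun ψ => ψ.1 ∈ X
  have h1 : ∀ i, ∑ ψ, ‖a i ψ‖ ^ 2 ≤ r := by
    intro i
    have h2 := hZNR p M hS G θ (z ^ (s + p * (i : ℕ))) (hPj _) η₀ (by rw [hCz _ (hj i)]; exact hη.1) hSB
    rw [hCz _ (hj i), ZBX_sum _ hfin, hr] at h2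
    have h3 : ((∑ ψ, ‖a i ψ‖ ^ 2 : ℝ) : ℂ) = (r : ℂ) := by
      rw [← h2]
      push_cast
      refine Finset.sum_congr rfl fun ψ _ => ?_
      rw [Complex.mul_conj']
    exact (Complex.ofReal_inj.1 h3).le
  have h2 : ∀ i j, i ≠ j → ∑ ψ, a i ψ * (starRingEnd ℂ) (a j ψ) = 0 := by
    intro i j hij
    have h3 := hZOR p M hS G θ (Cz (⊤ : Subgroup G) z) (z ^ (s + p * (i : ℕ))) (z ^ (s + p * (j : ℕ))) (hPj _) (hPj _)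
      (hCz _ (hj i)) (hCz _ (hj j)) η₀ hη.1 hSB (by
        intro g hg hSBg
        have h4 : s + p * (i : ℕ) ≡ s + p * (j : ℕ) [MOD p] := by
          refine Nat.ModEq.add_left s ?_
          exact ((Nat.modEq_zero_iff_dvd.2 (dvd_mul_right p _)).trans
            (Nat.modEq_zero_iff_dvd.2 (dvd_mul_right p _)).symm)
        have h5 := hZTS p M hS G D x θ χ lo z hz η₀ hη (s + p * (i : ℕ)) (s + p * (j : ℕ)) (hj i) h4 g hg hSBg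
        rw [pow_eq_pow_iff_modEq, ho] at h5
        have h6 := Nat.ModEq.add_left_cancel' s h5
        rw [hpe] at h6
        have h7 := Nat.ModEq.mul_left_cancel' hp.ne_zero h6
        exact hij (Fin.ext (Nat.ModEq.eq_of_lt_of_lt h7 i.2 j.2)))
    rw [ZBX_sum _ hfin] at h3
    exact h3
  have h3 : ∀ i j, ∀ ψ ∈ X', a i ψ = a j ψ := by
    intro i j ψ hψ
    have h4 := (hX ψ.1 (Finset.mem_filter.1 hψ).2).2
    have h5 : s + p * (i : ℕ) ≡ s + p * (j : ℕ) [MOD p] := by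
      refine Nat.ModEq.add_left s ?_
      exact ((Nat.modEq_zero_iff_dvd.2 (dvd_mul_right p _)).trans
        (Nat.modEq_zero_iff_dvd.2 (dvd_mul_right p _)).symm)
    exact hZGA p hp G m hm ψ.1 h4 z hP η₀ _ _ (hj i) h5
  have h4 := hZPR (Bl M (⊤ : Subgroup G) θ) X' (p ^ (e - 1)) a r hr0 h1 h2 h3 ⟨0, hn0⟩
  have h5 : ∑ ψ ∈ X', ‖a ⟨0, hn0⟩ ψ‖ ^ 2 = ∑ ψ ∈ X, ‖az p (Cz (⊤ : Subgroup G) z) η₀ ψ (z ^ s)‖ ^ 2 := by
    refine Finset.sum_bij (fun ψ _ => ψ.1) (fun ψ hψ => (Finset.mem_filter.1 hψ).2) (fun ψ _ ψ' _ h => Subtype.ext h)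
      (fun ψ hψ => ⟨⟨ψ, (hX ψ hψ).1⟩, Finset.mem_filter.2 ⟨Finset.mem_univ _, hψ⟩, rfl⟩) fun ψ _ => ?_
    change ‖az p (Cz (⊤ : Subgroup G) z) η₀ ψ.1 (z ^ (s + p * 0))‖ ^ 2 = _
    rw [mul_zero, add_zero]
  rw [h5] at h4
  push_cast at h4
  have h6 : (p : ℝ) ^ (2 * e - 1) = (p : ℝ) ^ e * (p : ℝ) ^ (e - 1) := by
    rw [← pow_add]
    congr 1
    omega
  rw [h6, mul_assoc]
  calc (p : ℝ) ^ e * ((p : ℝ) ^ (e - 1) * ∑ ψ ∈ X, ‖az p (Cz (⊤ : Subgroup G) z) η₀ ψ (z ^ s)‖ ^ 2)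
      ≤ (p : ℝ) ^ e * r := mul_le_mul_of_nonneg_left h4 (by positivity)
    _ ≤ 1 := hr1

theorem ZBX (hZX0 : ZX0_stmt) (hZPL : ZPL_stmt) (hZNV : ZNV_stmt) (hZNR : ZNR_stmt) (hZOR : ZOR_stmt) (hZTS : ZTS_stmt)
    (hZGA : ZGA_stmt) (hZE0 : ZE0_stmt) (hZPR : ZPR_stmt) (hZNG : ZNG_stmt) : ZBX_stmt := by
  classical
  intro p M hS G _ _ D x θ χ lo z hz e he ho m hm
  have hp : p.Prime := hS.pr
  have hpR : (0 : ℝ) < (p : ℝ) := by exact_mod_cast hp.pos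
  obtain ⟨η₀, hη, hη0⟩ := hZX0 p M hS G D x θ χ lo (Subgroup.zpowers z) ((Subgroup.zpowers_le).2 hz)
  rw [cz_zp z] at hη hη0
  have hfin : (Bl M (⊤ : Subgroup G) θ).Finite := (IrrOn_fin (⊤ : Subgroup G)).subset fun ψ h => h.1
  have hXf : {ψ : G → ℂ | ψ ∈ Bl M (⊤ : Subgroup G) θ ∧ PR m ψ}.Finite := hfin.subset fun ψ h => h.1
  obtain ⟨X, hX⟩ := hXf.exists_finset_coe
  have hX' : ∀ ψ ∈ X, ψ ∈ Bl M (⊤ : Subgroup G) θ ∧ PR m ψ := fun ψ hψ => by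
    have h : ψ ∈ {ψ : G → ℂ | ψ ∈ Bl M (⊤ : Subgroup G) θ ∧ PR m ψ} := by rw [← hX]; exact hψ
    exact h
  have hcard : {ψ : G → ℂ | ψ ∈ Bl M (⊤ : Subgroup G) θ ∧ PR m ψ}.ncard = X.card := by
    rw [← hX, Set.ncard_coe_finset]
  rw [hcard]
  have hn : 0 < p ^ e := pow_pos hp.pos _
  obtain ⟨ζ, hζ⟩ : ∃ ζ : ℂ, IsPrimitiveRoot ζ (p ^ e) := ⟨_, Complex.isPrimitiveRoot_exp _ hn.ne'⟩
  have hcop : ∀ s : ℕ, s.Coprime (p ^ e) → ¬ p ∣ s := fun s hs h => by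
    have h1 : p ∣ Nat.gcd s (p ^ e) := Nat.dvd_gcd h (dvd_pow_self p (by omega))
    rw [Nat.Coprime] at hs
    rw [hs] at h1
    exact hp.one_lt.ne' (Nat.dvd_one.1 h1)
  have hPex : ∀ ψ ∈ X, ∃ P : Polynomial ℤ, ∀ s : ℕ,
      (Nat.card D : ℂ) * az p (Cz (⊤ : Subgroup G) z) η₀ ψ (z ^ s) = Polynomial.aeval (ζ ^ s) P := fun ψ hψ =>
    hZPL p M hS G D x θ χ lo z hz η₀ hη ψ (hX' ψ hψ).1.1 (p ^ e) hn (by rw [← ho]; exact pow_orderOf_eq_one z) ζ hζ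
  choose! P hPP using hPex
  have hD : (0 : ℝ) < (Nat.card D : ℝ) := by exact_mod_cast Nat.card_pos
  have hDC : (Nat.card D : ℂ) ≠ 0 := by exact_mod_cast Nat.card_pos.ne'
  -- one primitive root
  have hone : ∀ μ ∈ primitiveRoots (p ^ e) ℂ,
      (∀ ψ ∈ X, Polynomial.aeval μ (P ψ) ≠ 0) ∧
        (p : ℝ) ^ (2 * e - 1) * ∑ ψ ∈ X, ‖Polynomial.aeval μ (P ψ)‖ ^ 2 ≤ (Nat.card D : ℝ) ^ 2 := by
    intro μ hμ
    have h1 : IsPrimitiveRoot μ (p ^ e) := (mem_primitiveRoots hn).1 hμ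
    haveI : NeZero (p ^ e) := ⟨hn.ne'⟩
    obtain ⟨s, _, hs, hsμ⟩ := hζ.isPrimitiveRoot_iff.1 h1
    have hs' : ¬ p ∣ s := hcop s hs
    have hCz : Cz (⊤ : Subgroup G) (z ^ s) = Cz (⊤ : Subgroup G) z := ZBX_Cz z s (by rw [ho]; exact hs)
    refine ⟨fun ψ hψ => ?_, ?_⟩
    · rw [← hsμ, ← hPP ψ hψ s]
      have h2 := hZNV p M hS G D x θ χ lo (z ^ s) (D.pow_mem hz s) η₀ (by rw [hCz]; exact hη) (by rw [hCz]; exact hη0)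
        ψ (hX' ψ hψ).1
      rw [hCz] at h2
      exact mul_ne_zero hDC h2
    · have h2 := ZBX_one hZNR hZOR hZTS hZGA hZE0 hZPR p M hS G D x θ χ lo z hz e he ho m hm η₀ hη s hs' X hX'
      have h3 : ∑ ψ ∈ X, ‖Polynomial.aeval μ (P ψ)‖ ^ 2 =
          (Nat.card D : ℝ) ^ 2 * ∑ ψ ∈ X, ‖az p (Cz (⊤ : Subgroup G) z) η₀ ψ (z ^ s)‖ ^ 2 := by
        rw [Finset.mul_sum]
        refine Finset.sum_congr rfl fun ψ hψ => ?_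
        rw [← hsμ, ← hPP ψ hψ s, norm_mul, mul_pow, Complex.norm_natCast]
      rw [h3]
      calc (p : ℝ) ^ (2 * e - 1) * ((Nat.card D : ℝ) ^ 2 * ∑ ψ ∈ X, ‖az p (Cz (⊤ : Subgroup G) z) η₀ ψ (z ^ s)‖ ^ 2)
          = (Nat.card D : ℝ) ^ 2 * ((p : ℝ) ^ (2 * e - 1) * ∑ ψ ∈ X, ‖az p (Cz (⊤ : Subgroup G) z) η₀ ψ (z ^ s)‖ ^ 2) := by
            ring
        _ ≤ (Nat.card D : ℝ) ^ 2 * 1 := mul_le_mul_of_nonneg_left h2 (by positivity)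
        _ = (Nat.card D : ℝ) ^ 2 := mul_one _
  have htot : 0 < Nat.totient (p ^ e) := Nat.totient_pos.2 hn
  have h1 : (X.card : ℝ) * (Nat.totient (p ^ e) : ℝ) ≤
      ∑ ψ ∈ X, ∑ μ ∈ primitiveRoots (p ^ e) ℂ, ‖Polynomial.aeval μ (P ψ)‖ ^ 2 := by
    rw [← nsmul_eq_mul]
    refine Finset.card_nsmul_le_sum _ _ _ fun ψ hψ => ?_
    exact hZNG (p ^ e) hn (P ψ) fun μ hμ => (hone μ hμ).1 ψ hψ
  rw [Finset.sum_comm] at h1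
  have h2 : (p : ℝ) ^ (2 * e - 1) * ∑ μ ∈ primitiveRoots (p ^ e) ℂ, ∑ ψ ∈ X, ‖Polynomial.aeval μ (P ψ)‖ ^ 2 ≤
      (Nat.totient (p ^ e) : ℝ) * (Nat.card D : ℝ) ^ 2 := by
    rw [Finset.mul_sum]
    have h3 := Finset.sum_le_card_nsmul (primitiveRoots (p ^ e) ℂ)
      (fun μ => (p : ℝ) ^ (2 * e - 1) * ∑ ψ ∈ X, ‖Polynomial.aeval μ (P ψ)‖ ^ 2) ((Nat.card D : ℝ) ^ 2)
      fun μ hμ => (hone μ hμ).2
    rw [hζ.card_primitiveRoots, nsmul_eq_mul] at h3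
    exact h3
  have h3 : (X.card : ℝ) * (p : ℝ) ^ (2 * e - 1) ≤ (Nat.card D : ℝ) ^ 2 := by
    have h4 : (Nat.totient (p ^ e) : ℝ) * ((X.card : ℝ) * (p : ℝ) ^ (2 * e - 1)) ≤
        (Nat.totient (p ^ e) : ℝ) * (Nat.card D : ℝ) ^ 2 := by
      calc (Nat.totient (p ^ e) : ℝ) * ((X.card : ℝ) * (p : ℝ) ^ (2 * e - 1))
          = (p : ℝ) ^ (2 * e - 1) * ((X.card : ℝ) * (Nat.totient (p ^ e) : ℝ)) := by ring
        _ ≤ (p : ℝ) ^ (2 * e - 1) * ∑ μ ∈ primitiveRoots (p ^ e) ℂ, ∑ ψ ∈ X, ‖Polynomial.aeval μ (P ψ)‖ ^ 2 :=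
            mul_le_mul_of_nonneg_left h1 (by positivity)
        _ ≤ _ := h2
    exact le_of_mul_le_mul_left h4 (by exact_mod_cast htot)
  have h4 : (X.card * p ^ (2 * e - 1) : ℕ) ≤ Nat.card D ^ 2 := by
    exact_mod_cast h3
  have h5 : p ^ (2 * e) = p * p ^ (2 * e - 1) := by
    rw [← pow_succ']
    congr 1
    omega
  calc X.card * p ^ (2 * e) = p * (X.card * p ^ (2 * e - 1)) := by rw [h5]; ring
    _ ≤ p * Nat.card D ^ 2 := Nat.mul_le_mul_left p h4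

end Pool.Agent.LE
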