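import Pool.Agent.helper83.LE.AllB
import Pool.Agent.helper1.FI4.AllHT
import Pool.Agent.helper18.LZ.ZRG
import Pool.Agent.helper92.LZ.ZL1
import Pool.Agent.helper27.LZ.ZL2
import Pool.Agent.helper40.LZ.ZL3
import Pool.Agent.helper43.LZ.ZL4
import Pool.Agent.helper23.LZ.ZL5
import Pool.Agent.helper39.LZ.ZX0
import Pool.Agent.helper51.LZ.ZAX
import Pool.Agent.helper27.LZ.ZPL
import Pool.Agent.helper32.LZ.ZTH
import Pool.Agent.helper59.LZ.ZAG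
import Pool.Agent.helper91.LZ.ZCT
import Pool.Agent.helper58.LZ.ZNV
import Pool.Agent.helper59.LZ.ZNR
import Pool.Agent.helper98.LZ.ZOR
import Pool.Agent.helper23.LZ.ZTS
import Pool.Agent.helper5.LZ.ZGA
import Pool.Agent.helper48.LZ.ZE0
import Pool.Agent.helper84.LZ.ZPR
import Pool.Agent.helper36.LZ.ZNG
import Pool.Agent.helper5.LZ.BDZ
import Pool.Agent.helper36.LZ.HEZ
import Pool.Agent.helper70.LZ.ZBX

/-!
# Project LE, block BOUND-Z: all statements without hypotheses (helper70)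

`zBDZ : BDZ_stmt`, `zHEZ : HEZ_stmt` are the output.
-/

set_option autoImplicit false

namespace Pool.Agent.LE.AllZ

open Pool.Agent Pool.Agent.helper58.DC Pool.Agent.DI Pool.Agent.GR Pool.Agent.OB Pool.Agent.DR Pool.Agent.FI Pool.Agent.FI3 Pool.Agent.FI4 Pool.Agent.LE

theorem zZRG : ZRG_stmt := LE.ZRG AllQ1.qQRP AllQ1.qQEV
theorem zZL1 : ZL1_stmt := LE.ZL1 AllQ1.qQEV GR.All.dIDM GR.All.dEXP GR.All.dB2 AllA.dSTC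
theorem zZL2 : ZL2_stmt := LE.ZL2 zZL1 zZRG AllA.dTPR AllQ1.qQCE AllQ1.qQRS GR.All.dB2 AllA.dSTC
theorem zZL3 : ZL3_stmt := LE.ZL3 AllHT.hNRC AllQ1.qQRP AllA.dSTC
theorem zZL4 : ZL4_stmt := LE.ZL4 GR.All.dC3 GR.All.dB2 GR.All.dCVF
theorem zZL5 : ZL5_stmt := LE.ZL5 zZL2 zZL3 zZL4
theorem zZX0 : ZX0_stmt := LE.ZX0 zZL1 AllA.dBLE AllA.dSBI AllA.dEXB AllQ1.qQEI GR.All.dB2
theorem zZAX : ZAX_stmt := LE.ZAX AllQ1.qQRS AllQ1.qQCE AllQ1.qQEI AllA.dBLE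
theorem zZPL : ZPL_stmt := LE.ZPL zZAX zZL5 AllQ1.qQRS AllQ1.qQCE
theorem zZTH : ZTH_stmt := LE.ZTH AllP4.pQCN4 AllA.dBRY AllA.dSTC GR.All.dB2
theorem zZAG : ZAG_stmt := LE.ZAG zZTH AllA.dEXB AllA.dSBI AllQ1.qQEI AllQ1.qQCE AllC.cFEQ GR.All.dB2 GR.All.dC3
theorem zZCT : ZCT_stmt := LE.ZCT AllP4.pQFU4 AllA.dEXB AllC.cFEQ AllP4.pFRA4 AllA.dTPR
theorem zZNV : ZNV_stmt := LE.ZNV zZAG zZCT
theorem zZNR : ZNR_stmt := LE.ZNR AllA.dBRY AllA.dBLE AllQ1.qQEI AllA.dSTC GR.All.dB2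
theorem zZOR : ZOR_stmt := LE.ZOR GR.All.dBR0 AllA.dBRY AllA.dBLE AllQ1.qQEI AllQ1.qQCJ AllC.cFEQ GR.All.dSFC AllA.dSTC GR.All.dB2
theorem zZTS : ZTS_stmt := LE.ZTS AllP4.pQFU4
theorem zZGA : ZGA_stmt := LE.ZGA AllB.lGP2
theorem zZE0 : ZE0_stmt := LE.ZE0 AllQ1.qQCE GR.All.dB2 AllA.dSTC
theorem zZPR : ZPR_stmt := LE.ZPR
theorem zZNG : ZNG_stmt := LE.ZNG AllHT.hNRC
theorem zZBX : ZBX_stmt := LE.ZBX zZX0 zZPL zZNV zZNR zZOR zZTS zZGA zZE0 zZPR zZNG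
theorem zBDZ : BDZ_stmt := LE.BDZ AllP4.pLOA AllB.lGM2 AllB.lCNL AllK.kLLN AllA.dTPR zZBX
theorem zHEZ : HEZ_stmt := LE.HEZ

end Pool.Agent.LE.AllZ
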