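import Mathlib
import Pool.Agent.helper70.LZ.SpecZ

/-!
# Project LE / NA (MP_baa4d7_al), block BOUND-ZN: `l(B) ≤ p q ^ 2` for blocks with ARBITRARY (nonabelian) defect groups

HYPOTHESIS (`UZ`): `z`, `x` commute, `z` is a `p`-element of order `p ^ e`, `e ≥ 1`, `x` is `p`-regular, the central character of `χ` at the class sum of `z x` is not in `M`, and `|C_G(z x)|_p ≤ q p ^ e`. (If `D` is a defect group of the block `B` of `χ` and `z ∈ Z(D)` has order `p ^ e`, then such an `x` exists, with `q = |D| / p ^ e`.)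

OUTPUT: `BZN_stmt`. No Brauer pairs, no first main theorem, no condition on the fusion.

IDEA. `K = C_G(z)`. (1) WEX: by Brauer's lemma (ZL1) there is ONE `η₀ ∈ Irr K` with `az ψ z ≠ 0` for ALL `ψ ∈ B`, and `b(η₀)^G = B`. (2) The norm: `∑_{ψ ∈ B} |az ψ (z ^ j)|² = EE η₀ η₀ ≤ p^(-e)` (ZNR, ZE0). (3) `L` = the `g` with `g z g⁻¹ = z ^ s`, `s ≡ 1` modulo `p`, which stabilise the block of `η₀` (WL1),
`|L : K| = p ^ f`. WL2: there is `y ∈ K` with `λ_b(cls K y) ≠ 0` and `p ^ f |C_K(y)|_p ≤ |C_G(z x)|_p ≤ q p ^ e`. With `N = |C_K(y)|_p`: `N EE η η₀ ∈ ℤ` for `η ∈ b(η₀)` (WZ4, WZ5), so `N az ψ (z ^ s) = P(ζ ^ s)`, `P ∈ ℤ[X]` (WPL). (4) WFM: there are `n = p ^ (e - 1 - f)` exponents `j ≡ s` modulo `p` which are not equivalent modulo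
`L`; the columns are orthogonal (ZOR) and agree on `X` (ZGA): `n ∑_{ψ ∈ X} |az ψ (z ^ s)|² ≤ p^(-e)` (ZPR). (5) The mean of `|P|²` over the conjugates is at least `1` (WNG). Hence `|X| ≤ N² p^(f + 1 - 2 e) ≤ p q² / p ^ f` (WBX, helper70). (6) `l(B) ≤ |X|` (CNG, helper26).

RULES. File `Pool/Agent/<seat>/LZ/XXX.lean` (directory LZ) with

  import Pool.Agent.helper70.LZ.SpecW
  set_option autoImplicit false
  namespace Pool.Agent.LE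
  open Pool.Agent.helper58.DC Pool.Agent.DI Pool.Agent.GR Pool.Agent.OB Pool.Agent.DR Pool.Agent.FI Pool.Agent.FI3 Pool.Agent.FI4
  theorem XXX (hYYY : YYY_stmt) ... : XXX_stmt := ...
  end Pool.Agent.LE

auxiliary lemmas prefixed `XXX_`, no sorry, no double quotes in the file, no `convert`, no `congr!`. Most of the rows are PORTS of rows of SpecZ (landed, `Pool/Agent/*/LZ`): import the old file and use its auxiliary lemmas.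
-/

set_option autoImplicit false

namespace Pool.Agent.LE

open Pool.Agent.helper58.DC Pool.Agent.DI Pool.Agent.GR Pool.Agent.OB Pool.Agent.DR Pool.Agent.FI Pool.Agent.FI3 Pool.Agent.FI4

/-- The unit class `z x`. -/
structure UZ {G : Type} [Group G] (p : ℕ) (M : Ideal (integralClosure ℤ ℂ)) (χ : G → ℂ) (z x : G) (e q : ℕ) : Prop where
  com : z * x = x * z
  reg : PReg p x
  ord : orderOf z = p ^ e
  unt : ¬ InM M (cc χ (cls (⊤ : Subgroup G) (z * x)))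
  le : pp p (Cz (⊤ : Subgroup G) (z * x)) ≤ q * p ^ e

/-- The condition on the elements of the stabiliser `L`. -/
def LW {G : Type} [Group G] (p : ℕ) (M : Ideal (integralClosure ℤ ℂ)) (z : G) (η₀ : G → ℂ) (g : G) : Prop :=
  ∃ s : ℕ, s ≡ 1 [MOD p] ∧ g * z * g⁻¹ = z ^ s ∧ SB M (Cz (⊤ : Subgroup G) z) (cjF g η₀) η₀

/-- **WSM** (short to medium; from BRY, BLE, QEI, STC, B2 as ZNR, `helper59/LZ/ZNR.lean`). Second main theorem. Proof: `K = Cz ⊤ u`, `S = Bl M ⊤ ψ`. As in ZNR: `∑_{ψ' ∈ S} |az ψ' u|² = ∑_{η ∈ Bq M ⊤ K ψ} EE p K η η₀ * EE p K η₀ η`. `Bq M ⊤ K ψ` is a union of blocks of `K` (BLE / `Q1_BC`) and `η₀` is not in it (`¬ SB M ⊤ η₀ ψ`): every summand is `0` (QEI (2)).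
So every `az ψ' u`, in particular `az ψ u`, is `0`. -/
def WSM_stmt : Prop :=
  ∀ (p : ℕ) (M : Ideal (integralClosure ℤ ℂ)), Setup p M → ∀ (G : Type) [Group G] [Finite G] (u : G), PEl p u →
    ∀ η₀ ∈ IrrOn (Cz (⊤ : Subgroup G) u), ∀ ψ ∈ IrrOn (⊤ : Subgroup G), ¬ SB M (⊤ : Subgroup G) η₀ ψ →
    az p (Cz (⊤ : Subgroup G) u) η₀ ψ u = 0

/-- **WTR** (short; the first half of ZNV, `helper58/LZ/ZNV.lean`). The trace `W x = ∑_{g K} kap(z⁻¹ g⁻¹ x g)`: a class function of `G` with integral values, and `cc ψ W = |G / K| (∑_y kap(z⁻¹ y) ψ y) / ψ 1 = |G| az ψ z / ψ 1`. -/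
def WTR_stmt : Prop :=
  ∀ (p : ℕ) (G : Type) [Group G] [Finite G] (z : G), ∀ η₀ ∈ IrrOn (Cz (⊤ : Subgroup G) z),
    ∃ W : G → ℂ, CF (⊤ : Subgroup G) W ∧ (∀ x, IsIntegral ℤ (W x)) ∧
      ∀ ψ ∈ IrrOn (⊤ : Subgroup G), cc ψ W = (Nat.card G : ℂ) * az p (Cz (⊤ : Subgroup G) z) η₀ ψ z / ψ 1

/-- **WEX** (medium; from ZL1, WTR, WSM, CVF or `cc_cls`). Proof: `K = Cz ⊤ z`, `x ∈ K`. ZL1 with `q = p` for `x⁻¹`: `c`, `n`, `p ∤ n`. For `p`-regular `v ∈ K`: `∑_η c η * η v⁻¹` is `n` if `v` is conjugate to `x` in `K` and `0` otherwise (if it is not `0` then `k v⁻¹ k⁻¹ = x⁻¹ s` with a `p`-element `s` which commutes with `x⁻¹`, and `s = 1` since `v` is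
`p`-regular). So for `ψ ∈ IrrOn ⊤`: `∑_η c η * az η ψ z = n |K|⁻¹ ∑_{v ∈ cls K x} ψ (z v) = n ψ (z x) / |C_K(x)|`, and `C_K(x) = Cz ⊤ (z x)` (`z`, `x` are powers of `z x`). With `cc ψ (cls ⊤ (z x)) = |G| ψ (z x) / (|Cz ⊤ (z x)| ψ 1)` (`cc_cls`): `∑_η c η * cc ψ (W_η) = n cc ψ (cls ⊤ (z x))` (`W_η` from WTR). For `ψ = χ` this is not `InM` (`p ∤ n`), so there
is `η₀` with `¬ InM (cc χ W)`, `W = W_η₀`. For `ψ ∈ Bl M ⊤ χ` `cc ψ W - cc χ W` is in `M` (`SB`), so `cc ψ W` is not `InM`, so not `0`, so `az ψ z ≠ 0`. `SB M ⊤ η₀ χ`: otherwise `az χ z = 0` (WSM). -/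
def WEX_stmt : Prop :=
  ∀ (p : ℕ) (M : Ideal (integralClosure ℤ ℂ)), Setup p M → ∀ (G : Type) [Group G] [Finite G], ∀ χ ∈ IrrOn (⊤ : Subgroup G),
    ∀ z x : G, z * x = x * z → PEl p z → PReg p x → ¬ InM M (cc χ (cls (⊤ : Subgroup G) (z * x))) →
    ∃ η₀ ∈ IrrOn (Cz (⊤ : Subgroup G) z), SB M (⊤ : Subgroup G) η₀ χ ∧
      ∀ ψ ∈ Bl M (⊤ : Subgroup G) χ, az p (Cz (⊤ : Subgroup G) z) η₀ ψ z ≠ 0

/-- **WZ4** (short; PORT of ZL4, `helper43/LZ/ZL4.lean`). Proof: `cc η (cls K y) = (|K| / |C_K(y)|) η y / η 1` is not `InM`, `η y` is integral, so `|C_K(y)| η 1 / |K|` is `IntAt M`, and so is `N η 1 / |K|` for the `p`-part `N` of `|C_K(y)|`. `N EE p K η η' = (N η 1 / |K|) * cc η (kap p K η')`, and `cc η (kap p K η')` is integral (C3 (1)). -/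
def WZ4_stmt : Prop :=
  ∀ (p : ℕ) (M : Ideal (integralClosure ℤ ℂ)), Setup p M → ∀ (G : Type) [Group G] [Finite G] (K : Subgroup G), ∀ y ∈ K,
    ∀ η ∈ IrrOn K, ¬ InM M (cc η (cls K y)) → ∀ η' ∈ IrrOn K, IntAt M ((pp p (Cz K y) : ℂ) * EE p K η η')

/-- **WZ5** (short; from ZL2, ZL3, WZ4; PORT of ZL5, `helper23/LZ/ZL5.lean`). -/
def WZ5_stmt : Prop :=
  ∀ (p : ℕ) (M : Ideal (integralClosure ℤ ℂ)), Setup p M → ∀ (G : Type) [Group G] [Finite G] (K : Subgroup G), ∀ y ∈ K,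
    ∀ η ∈ IrrOn K, ¬ InM M (cc η (cls K y)) → ∀ η' ∈ IrrOn K, ∃ r : ℤ, (pp p (Cz K y) : ℂ) * EE p K η η' = (r : ℂ)

/-- **WPL** (short to medium; from ZAX with `θ = η₀`, WZ5, QRS, QCE; PORT of ZPL, `helper27/LZ/ZPL.lean`). Proof: for `η ∈ Bl M K η₀` the number `cc η (cls K y) - cc η₀ (cls K y)` is in `M`, so `cc η (cls K y)` is not `InM` and WZ5 applies to `η`. Then as ZPL. -/
def WPL_stmt : Prop :=
  ∀ (p : ℕ) (M : Ideal (integralClosure ℤ ℂ)), Setup p M → ∀ (G : Type) [Group G] [Finite G] (z : G),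
    ∀ y ∈ Cz (⊤ : Subgroup G) z, ∀ η₀ ∈ IrrOn (Cz (⊤ : Subgroup G) z), ¬ InM M (cc η₀ (cls (Cz (⊤ : Subgroup G) z) y)) →
    ∀ ψ ∈ IrrOn (⊤ : Subgroup G), ∀ n : ℕ, 0 < n → z ^ n = 1 → ∀ ζ : ℂ, IsPrimitiveRoot ζ n →
    ∃ P : Polynomial ℤ, ∀ s : ℕ, (pp p (Cz (Cz (⊤ : Subgroup G) z) y) : ℂ) * az p (Cz (⊤ : Subgroup G) z) η₀ ψ (z ^ s) =
      Polynomial.aeval (ζ ^ s) P

/-- **WL1** (medium; pure group theory; `SB_inner`, `SB_conj`, `funMap_mul` of `helper59/FI/Base`). The stabiliser. Proof: the set of the `g` with `LW` is a subgroup: if `g z g⁻¹ = z ^ s` with `s ≡ 1` modulo `p` then `z ^ s` generates `⟨z⟩`, so `cjS g K = K` (`K = Cz ⊤ z`); products: `g h z (g h)⁻¹ = z ^ (s t)`, `cjF (g h) η₀ = cjF g (cjF h η₀)`, `SB_conj`; inverses: `G` is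
finite, or `g⁻¹` is a power of `g`. `K ≤ L`: `s = 1`, `SB_inner`. `L / K` embeds into the group of the units modulo `p ^ e` which are `1` modulo `p` (order `p ^ (e - 1)`), by `g ↦ s`; e.g.: the orbit of `z` under the conjugation by `L` has `|L : K|` elements; the group `L / K` acts on the set `{z ^ s | s ≡ 1 [MOD p]}` of order `p ^ (e - 1)` with
all stabilisers `K / K`, so `|L : K|` divides `p ^ (e - 1)`. -/
def WL1_stmt : Prop :=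
  ∀ (p : ℕ), p.Prime → ∀ (M : Ideal (integralClosure ℤ ℂ)) (G : Type) [Group G] [Finite G] (z : G) (e : ℕ), 1 ≤ e → orderOf z = p ^ e →
    ∀ η₀ : G → ℂ, ∃ (L : Subgroup G) (f : ℕ), (∀ g, g ∈ L ↔ LW p M z η₀ g) ∧ Cz (⊤ : Subgroup G) z ≤ L ∧
      (Cz (⊤ : Subgroup G) z).relIndex L = p ^ f ∧ f + 1 ≤ e

/-- **WL2** (medium). The class `y`. Proof: `η` vanishes outside of `K`. `cls ⊤ g₀` restricted to `K` is the sum of the `cls L y` over the `L`-classes contained in `K ∩ cls ⊤ g₀` (`K` is normalised by `L`), so there is `y ∈ K`, conjugate to `g₀`, with `¬ InM (cc η (cls L y))`. The `L`-class of `y` is the disjoint union of the `K`-classes of `l y l⁻¹`, `l` in a set of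
representatives of `L / (K C_L(y))`; `cc η (cls K (l y l⁻¹)) = cc (cjF l⁻¹ η) (cls K y)`, congruent to `cc η (cls K y)` modulo `M`. So `cc η (cls L y) - r cc η (cls K y)` is `InM`, `r = |L : K C_L(y)|`, a divisor of `p ^ f`. Since `cc η (cls L y)` is not `InM`, `r = 1` and `cc η (cls K y)` is not `InM`. `r = 1`: `|L| |C_K(y)| = |K| |C_L(y)|`, so
`p ^ f |C_K(y)| = |C_L(y)|` divides `|Cz ⊤ y| = |Cz ⊤ g₀|`; take `p`-parts. -/
def WL2_stmt : Prop :=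
  ∀ (p : ℕ) (M : Ideal (integralClosure ℤ ℂ)), Setup p M → ∀ (G : Type) [Group G] [Finite G] (K L : Subgroup G) (f : ℕ),
    K ≤ L → (∀ l ∈ L, cjS l K = K) → K.relIndex L = p ^ f → ∀ η ∈ IrrOn K, (∀ l ∈ L, SB M K (cjF l η) η) →
    ∀ g₀ : G, ¬ InM M (cc η (cls (⊤ : Subgroup G) g₀)) →
    ∃ y ∈ K, (∃ g : G, g * g₀ * g⁻¹ = y) ∧ ¬ InM M (cc η (cls K y)) ∧ p ^ f * pp p (Cz K y) ≤ pp p (Cz (⊤ : Subgroup G) g₀)

/-- **WFM** (medium; pure group theory, only Mathlib and `mem_Cz`). The exponents. Proof: `J = {z ^ j | j ≡ s [MOD p]}` has `p ^ (e - 1)` elements (`e ≥ 1`). `L` acts on `J` by conjugation: `g (z ^ j) g⁻¹ = z ^ (t j)`, `t ≡ 1`. The stabiliser of `z ^ j ∈ J` in `L` is `Cz ⊤ z` (`p ∤ j`, so `z` is a power of `z ^ j`), so all orbits have `p ^ f` elements; `n` is the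
number of the orbits, `z ^ (j i)` representatives. If `g z ^ (j i) g⁻¹ = z ^ (j i')`: `z = (z ^ (j i)) ^ t` with `t j_i ≡ 1` modulo `p ^ e`, so `g z g⁻¹ = z ^ (t j_i')`, `t j_i' ≡ t j_i ≡ 1` modulo `p`; and `g ∈ L` would mean that `z ^ (j i)`, `z ^ (j i')` are in the same orbit, so `i = i'`. -/
def WFM_stmt : Prop :=
  ∀ (p : ℕ), p.Prime → ∀ (G : Type) [Group G] [Finite G] (z : G) (e f : ℕ), 1 ≤ e → orderOf z = p ^ e → ∀ L : Subgroup G,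
    Cz (⊤ : Subgroup G) z ≤ L → (∀ g ∈ L, ∃ s : ℕ, s ≡ 1 [MOD p] ∧ g * z * g⁻¹ = z ^ s) →
    (Cz (⊤ : Subgroup G) z).relIndex L = p ^ f → ∀ s : ℕ, ¬ p ∣ s →
    ∃ (n : ℕ) (j : Fin n → ℕ), n * p ^ f = p ^ (e - 1) ∧ (∀ i, j i ≡ s [MOD p]) ∧
      ∀ i i', i ≠ i' → ∀ g : G, g * z ^ (j i) * g⁻¹ = z ^ (j i') → g ∉ L ∧ ∃ s' : ℕ, s' ≡ 1 [MOD p] ∧ g * z * g⁻¹ = z ^ s'

/-- **WNG** (short; pure; from ZNG). Proof: `μ` and `ζ` have the same minimal polynomial over `ℚ` (the cyclotomic polynomial, `Polynomial.cyclotomic_eq_minpoly`), so `P μ = 0` would give `P ζ = 0`; then ZNG. -/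
def WNG_stmt : Prop :=
  ∀ n : ℕ, 0 < n → ∀ ζ : ℂ, IsPrimitiveRoot ζ n → ∀ P : Polynomial ℤ, Polynomial.aeval ζ P ≠ 0 →
    (Nat.totient n : ℝ) ≤ ∑ μ ∈ primitiveRoots n ℂ, ‖Polynomial.aeval μ P‖ ^ 2

/-- **WBO** (helper70). One exponent. -/
def WBO_stmt : Prop :=
  ∀ (p : ℕ) (M : Ideal (integralClosure ℤ ℂ)), Setup p M → ∀ (G : Type) [Group G] [Finite G], ∀ χ ∈ IrrOn (⊤ : Subgroup G),
    ∀ (z : G) (e f : ℕ), 1 ≤ e → orderOf z = p ^ e → ∀ η₀ ∈ IrrOn (Cz (⊤ : Subgroup G) z), SB M (⊤ : Subgroup G) η₀ χ →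
    ∀ L : Subgroup G, (∀ g, g ∈ L ↔ LW p M z η₀ g) → Cz (⊤ : Subgroup G) z ≤ L → (Cz (⊤ : Subgroup G) z).relIndex L = p ^ f →
    ∀ m : ℕ, Gm2 p (Nat.card G) m → ∀ s : ℕ, ¬ p ∣ s → ∀ X : Finset (G → ℂ), (∀ ψ ∈ X, ψ ∈ Bl M (⊤ : Subgroup G) χ ∧ PR m ψ) →
    (p : ℝ) ^ (2 * e) * ∑ ψ ∈ X, ‖az p (Cz (⊤ : Subgroup G) z) η₀ ψ (z ^ s)‖ ^ 2 ≤ (p : ℝ) ^ (f + 1)

/-- **WBX** (helper70). The bound for `X`. -/
def WBX_stmt : Prop :=
  ∀ (p : ℕ) (M : Ideal (integralClosure ℤ ℂ)), Setup p M → ∀ (G : Type) [Group G] [Finite G], ∀ χ ∈ IrrOn (⊤ : Subgroup G),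
    ∀ (z x : G) (e q : ℕ), 1 ≤ e → UZ p M χ z x e q → ∀ m : ℕ, Gm2 p (Nat.card G) m →
    {ψ : G → ℂ | ψ ∈ Bl M (⊤ : Subgroup G) χ ∧ PR m ψ}.ncard ≤ p * q ^ 2

/-- **CNX** (helper26: CNG, in this form). `l(B) ≤ |X|` for every block. -/
def CNX_stmt : Prop :=
  ∀ (p : ℕ) (M : Ideal (integralClosure ℤ ℂ)), Setup p M → p ≠ 2 → ∀ (G : Type) [Group G] [Finite G], ∀ χ ∈ IrrOn (⊤ : Subgroup G),
    ∀ m : ℕ, Gm2 p (Nat.card G) m → ∀ l : ℕ, LL p M χ ⊤ = l → l ≤ {ψ : G → ℂ | ψ ∈ Bl M (⊤ : Subgroup G) χ ∧ PR m ψ}.ncard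

/-- **BZN** (helper70; from WBX, CNX, GM2, LLN). -/
def BZN_stmt : Prop :=
  ∀ (p : ℕ) (M : Ideal (integralClosure ℤ ℂ)), Setup p M → p ≠ 2 → ∀ (G : Type) [Group G] [Finite G], ∀ χ ∈ IrrOn (⊤ : Subgroup G),
    ∀ (z x : G) (e q : ℕ), 1 ≤ e → UZ p M χ z x e q → ∃ l : ℕ, LL p M χ ⊤ = l ∧ 1 ≤ l ∧ l ≤ p * q ^ 2

end Pool.Agent.LE
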