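import Mathlib
import Pool.Agent.helper70.LZ.SpecW
import Pool.Agent.helper70.LZ.ZBX
import Pool.Agent.helper26.CNG.Spec

set_option autoImplicit false

namespace Pool.Agent.LE

open Pool.Agent.helper58.DC Pool.Agent.DI Pool.Agent.GR Pool.Agent.OB Pool.Agent.DR Pool.Agent.FI Pool.Agent.FI3 Pool.Agent.FI4

/-- One exponent `s`, general form (any modulus). -/
theorem WBO_gen (hZNR : ZNR_stmt) (hZOR : ZOR_stmt) (hZE0 : ZE0_stmt) (hZPR : ZPR_stmt)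
    (p : ℕ) (M : Ideal (integralClosure ℤ ℂ)) (hS : Setup p M) (G : Type) [Group G] [Finite G]
    (χ : G → ℂ) (z : G) (e : ℕ) (ho : orderOf z = p ^ e) (η₀ : G → ℂ)
    (hη : η₀ ∈ IrrOn (Cz (⊤ : Subgroup G) z)) (hSB : SB M (⊤ : Subgroup G) η₀ χ) (s : ℕ)
    (n : ℕ) (hn0 : 0 < n) (j : Fin n → ℕ) (hj : ∀ i, ¬ p ∣ j i)
    (hperp : ∀ i i', i ≠ i' → ∀ g : G, g * z ^ (j i) * g⁻¹ = z ^ (j i') → ¬ SB M (Cz (⊤ : Subgroup G) z) (cjF g η₀) η₀)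
    (X : Finset (G → ℂ)) (hX : ∀ ψ ∈ X, ψ ∈ Bl M (⊤ : Subgroup G) χ)
    (hc : ∀ ψ ∈ X, ∀ i, az p (Cz (⊤ : Subgroup G) z) η₀ ψ (z ^ (j i)) = az p (Cz (⊤ : Subgroup G) z) η₀ ψ (z ^ s)) :
    (p : ℝ) ^ e * ((n : ℝ) * ∑ ψ ∈ X, ‖az p (Cz (⊤ : Subgroup G) z) η₀ ψ (z ^ s)‖ ^ 2) ≤ 1 := by
  classical
  have hp : p.Prime := hS.pr
  have hfin : (Bl M (⊤ : Subgroup G) χ).Finite := (IrrOn_fin (⊤ : Subgroup G)).subset fun ψ h => h.1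
  letI : Fintype (Bl M (⊤ : Subgroup G) χ) := hfin.fintype
  have hzK : z ∈ Cz (⊤ : Subgroup G) z := mem_Cz.2 ⟨Subgroup.mem_top z, rfl⟩
  have hcen : Cen (Cz (⊤ : Subgroup G) z) z := fun l hl => (mem_Cz.1 hl).2.symm
  have hP : PEl p z := ⟨e, by rw [← ho]; exact pow_orderOf_eq_one z⟩
  obtain ⟨r, hr, hr0, hr1⟩ := hZE0 p hp G (Cz (⊤ : Subgroup G) z) z hzK hcen e ho η₀ hη
  have hcop : ∀ j : ℕ, ¬ p ∣ j → j.Coprime (orderOf z) := fun j hj => by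
    rw [ho]
    exact Nat.Coprime.pow_right e (((Nat.Prime.coprime_iff_not_dvd hp).2 hj).symm)
  have hCz : ∀ j : ℕ, ¬ p ∣ j → Cz (⊤ : Subgroup G) (z ^ j) = Cz (⊤ : Subgroup G) z := fun j hj =>
    ZBX_Cz z j (hcop j hj)
  have hPj : ∀ j : ℕ, PEl p (z ^ j) := fun j => by
    obtain ⟨k, hk⟩ := hP
    exact ⟨k, by rw [← pow_mul, mul_comm, pow_mul, hk, one_pow]⟩
  let a : Fin n → (Bl M (⊤ : Subgroup G) χ) → ℂ := fun i ψ =>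
    az p (Cz (⊤ : Subgroup G) z) η₀ ψ.1 (z ^ (j i))
  let X' : Finset (Bl M (⊤ : Subgroup G) χ) := Finset.univ.filter fun ψ => ψ.1 ∈ X
  have h1 : ∀ i, ∑ ψ, ‖a i ψ‖ ^ 2 ≤ r := by
    intro i
    have h2 := hZNR p M hS G χ (z ^ (j i)) (hPj _) η₀ (by rw [hCz _ (hj i)]; exact hη) hSB
    rw [hCz _ (hj i), ZBX_sum _ hfin, hr] at h2
    have h3 : ((∑ ψ, ‖a i ψ‖ ^ 2 : ℝ) : ℂ) = (r : ℂ) := by
      rw [← h2]
      push_cast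
      refine Finset.sum_congr rfl fun ψ _ => ?_
      rw [Complex.mul_conj']
    exact (Complex.ofReal_inj.1 h3).le
  have h2 : ∀ i i', i ≠ i' → ∑ ψ, a i ψ * (starRingEnd ℂ) (a i' ψ) = 0 := by
    intro i i' hij
    have h3 := hZOR p M hS G χ (Cz (⊤ : Subgroup G) z) (z ^ (j i)) (z ^ (j i')) (hPj _) (hPj _)
      (hCz _ (hj i)) (hCz _ (hj i')) η₀ hη hSB (hperp i i' hij)
    rw [ZBX_sum _ hfin] at h3
    exact h3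
  have h3 : ∀ i i', ∀ ψ ∈ X', a i ψ = a i' ψ := by
    intro i i' ψ hψ
    have h4 := (Finset.mem_filter.1 hψ).2
    exact (hc ψ.1 h4 i).trans (hc ψ.1 h4 i').symm
  have h4 := hZPR (Bl M (⊤ : Subgroup G) χ) X' n a r hr0 h1 h2 h3 ⟨0, hn0⟩
  have h5 : ∑ ψ ∈ X', ‖a ⟨0, hn0⟩ ψ‖ ^ 2 = ∑ ψ ∈ X, ‖az p (Cz (⊤ : Subgroup G) z) η₀ ψ (z ^ s)‖ ^ 2 := by
    refine Finset.sum_bij (fun ψ _ => ψ.1) (fun ψ hψ => (Finset.mem_filter.1 hψ).2) (fun ψ _ ψ' _ h => Subtype.ext h)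
      (fun ψ hψ => ⟨⟨ψ, hX ψ hψ⟩, Finset.mem_filter.2 ⟨Finset.mem_univ _, hψ⟩, rfl⟩) fun ψ hψ => ?_
    change ‖az p (Cz (⊤ : Subgroup G) z) η₀ ψ.1 (z ^ (j ⟨0, hn0⟩))‖ ^ 2 = _
    rw [hc ψ.1 (Finset.mem_filter.1 hψ).2]
  rw [h5] at h4
  calc (p : ℝ) ^ e * ((n : ℝ) * ∑ ψ ∈ X, ‖az p (Cz (⊤ : Subgroup G) z) η₀ ψ (z ^ s)‖ ^ 2)
      ≤ (p : ℝ) ^ e * r := mul_le_mul_of_nonneg_left h4 (by positivity)
    _ ≤ 1 := hr1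

/-- The bound, general form (any modulus `P`). -/
theorem WBX_gen (hWNG : WNG_stmt) (p : ℕ) (hp : p.Prime) (G : Type) [Group G] [Finite G]
    (K : Subgroup G) (z : G) (η₀ : G → ℂ) (e f q N P : ℕ) (hN : p ^ f * N ≤ q * p ^ e)
    (X : Finset (G → ℂ))
    (hs : ∀ s : ℕ, ¬ p ∣ s → (p : ℝ) ^ (2 * e) * ∑ ψ ∈ X, ‖az p K η₀ ψ (z ^ s)‖ ^ 2 ≤ (P : ℝ) * (p : ℝ) ^ f)
    (ζ : ℂ) (hζ : IsPrimitiveRoot ζ (p ^ e)) (he : 1 ≤ e)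
    (hPP : ∀ ψ ∈ X, ∃ F : Polynomial ℤ, ∀ s : ℕ, (N : ℂ) * az p K η₀ ψ (z ^ s) = Polynomial.aeval (ζ ^ s) F)
    (h0 : ∀ ψ ∈ X, az p K η₀ ψ z ≠ 0) (hN0 : N ≠ 0) : X.card ≤ P * q ^ 2 := by
  classical
  have hpR : (0 : ℝ) < (p : ℝ) := by exact_mod_cast hp.pos
  have hn : 0 < p ^ e := pow_pos hp.pos _
  have hcop : ∀ s : ℕ, s.Coprime (p ^ e) → ¬ p ∣ s := fun s hs h => by
    have h1 : p ∣ Nat.gcd s (p ^ e) := Nat.dvd_gcd h (dvd_pow_self p (by omega))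
    rw [Nat.Coprime] at hs
    rw [hs] at h1
    exact hp.one_lt.ne' (Nat.dvd_one.1 h1)
  choose! F hF using hPP
  have hone : ∀ μ ∈ primitiveRoots (p ^ e) ℂ,
      (p : ℝ) ^ (2 * e) * ∑ ψ ∈ X, ‖Polynomial.aeval μ (F ψ)‖ ^ 2 ≤ (N : ℝ) ^ 2 * ((P : ℝ) * (p : ℝ) ^ f) := by
    intro μ hμ
    have h1 : IsPrimitiveRoot μ (p ^ e) := (mem_primitiveRoots hn).1 hμ
    haveI : NeZero (p ^ e) := ⟨hn.ne'⟩
    obtain ⟨s, _, hs1, hsμ⟩ := hζ.isPrimitiveRoot_iff.1 h1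
    have hs' : ¬ p ∣ s := hcop s hs1
    have h3 : ∑ ψ ∈ X, ‖Polynomial.aeval μ (F ψ)‖ ^ 2 = (N : ℝ) ^ 2 * ∑ ψ ∈ X, ‖az p K η₀ ψ (z ^ s)‖ ^ 2 := by
      rw [Finset.mul_sum]
      refine Finset.sum_congr rfl fun ψ hψ => ?_
      rw [← hsμ, ← hF ψ hψ s, norm_mul, mul_pow, Complex.norm_natCast]
    rw [h3]
    calc (p : ℝ) ^ (2 * e) * ((N : ℝ) ^ 2 * ∑ ψ ∈ X, ‖az p K η₀ ψ (z ^ s)‖ ^ 2)
        = (N : ℝ) ^ 2 * ((p : ℝ) ^ (2 * e) * ∑ ψ ∈ X, ‖az p K η₀ ψ (z ^ s)‖ ^ 2) := by ring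
      _ ≤ _ := mul_le_mul_of_nonneg_left (hs s hs') (by positivity)
  have htot : 0 < Nat.totient (p ^ e) := Nat.totient_pos.2 hn
  have h1 : (X.card : ℝ) * (Nat.totient (p ^ e) : ℝ) ≤
      ∑ ψ ∈ X, ∑ μ ∈ primitiveRoots (p ^ e) ℂ, ‖Polynomial.aeval μ (F ψ)‖ ^ 2 := by
    rw [← nsmul_eq_mul]
    refine Finset.card_nsmul_le_sum _ _ _ fun ψ hψ => ?_
    refine hWNG (p ^ e) hn ζ hζ (F ψ) ?_
    have h2 := hF ψ hψ 1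
    rw [pow_one, pow_one] at h2
    rw [← h2]
    exact mul_ne_zero (by exact_mod_cast hN0) (h0 ψ hψ)
  rw [Finset.sum_comm] at h1
  have h2 : (p : ℝ) ^ (2 * e) * ∑ μ ∈ primitiveRoots (p ^ e) ℂ, ∑ ψ ∈ X, ‖Polynomial.aeval μ (F ψ)‖ ^ 2 ≤
      (Nat.totient (p ^ e) : ℝ) * ((N : ℝ) ^ 2 * ((P : ℝ) * (p : ℝ) ^ f)) := by
    rw [Finset.mul_sum]
    have h3 := Finset.sum_le_card_nsmul (primitiveRoots (p ^ e) ℂ)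
      (fun μ => (p : ℝ) ^ (2 * e) * ∑ ψ ∈ X, ‖Polynomial.aeval μ (F ψ)‖ ^ 2) ((N : ℝ) ^ 2 * ((P : ℝ) * (p : ℝ) ^ f))
      fun μ hμ => hone μ hμ
    rw [hζ.card_primitiveRoots, nsmul_eq_mul] at h3
    exact h3
  have h3 : (X.card : ℝ) * (p : ℝ) ^ (2 * e) ≤ (N : ℝ) ^ 2 * ((P : ℝ) * (p : ℝ) ^ f) := by
    have h4 : (Nat.totient (p ^ e) : ℝ) * ((X.card : ℝ) * (p : ℝ) ^ (2 * e)) ≤
        (Nat.totient (p ^ e) : ℝ) * ((N : ℝ) ^ 2 * ((P : ℝ) * (p : ℝ) ^ f)) := by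
      calc (Nat.totient (p ^ e) : ℝ) * ((X.card : ℝ) * (p : ℝ) ^ (2 * e))
          = (p : ℝ) ^ (2 * e) * ((X.card : ℝ) * (Nat.totient (p ^ e) : ℝ)) := by ring
        _ ≤ (p : ℝ) ^ (2 * e) * ∑ μ ∈ primitiveRoots (p ^ e) ℂ, ∑ ψ ∈ X, ‖Polynomial.aeval μ (F ψ)‖ ^ 2 :=
            mul_le_mul_of_nonneg_left h1 (by positivity)
        _ ≤ _ := h2
    exact le_of_mul_le_mul_left h4 (by exact_mod_cast htot)
  have h4 : X.card * p ^ (2 * e) ≤ N ^ 2 * (P * p ^ f) := by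
    exact_mod_cast h3
  have h5 : (X.card * p ^ f) * p ^ (2 * e) ≤ (P * q ^ 2) * p ^ (2 * e) := by
    calc (X.card * p ^ f) * p ^ (2 * e) = (X.card * p ^ (2 * e)) * p ^ f := by ring
      _ ≤ (N ^ 2 * (P * p ^ f)) * p ^ f := Nat.mul_le_mul_right _ h4
      _ = P * (p ^ f * N) ^ 2 := by ring
      _ ≤ P * (q * p ^ e) ^ 2 := Nat.mul_le_mul_left _ (Nat.pow_le_pow_left hN 2)
      _ = (P * q ^ 2) * p ^ (2 * e) := by ring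
  have h6 : X.card * p ^ f ≤ P * q ^ 2 := Nat.le_of_mul_le_mul_right h5 (pow_pos hp.pos _)
  exact le_trans (Nat.le_mul_of_pos_right _ (pow_pos hp.pos _)) h6

theorem WBO (hZNR : ZNR_stmt) (hZOR : ZOR_stmt) (hZE0 : ZE0_stmt) (hZPR : ZPR_stmt) (hZGA : ZGA_stmt) (hWFM : WFM_stmt) :
    WBO_stmt := by
  intro p M hS G _ _ χ hχ z e f he ho η₀ hη hSB L hL hKL hf m hm s hs X hX
  have hp : p.Prime := hS.pr
  have hpR : (0 : ℝ) < (p : ℝ) := by exact_mod_cast hp.pos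
  have hP : PEl p z := ⟨e, by rw [← ho]; exact pow_orderOf_eq_one z⟩
  obtain ⟨n, j, hn, hjs, hjj⟩ := hWFM p hp G z e f he ho L hKL
    (fun g hg => by obtain ⟨s', h1, h2, _⟩ := (hL g).1 hg; exact ⟨s', h1, h2⟩) hf s hs
  have hn0 : 0 < n := by
    rcases Nat.eq_zero_or_pos n with h | h
    · rw [h, zero_mul] at hn
      exact absurd hn.symm (pow_pos hp.pos _).ne'
    · exact h
  have hj : ∀ i, ¬ p ∣ j i := fun i h => hs ((Nat.ModEq.dvd_iff (hjs i) dvd_rfl).1 h)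
  have h1 := WBO_gen hZNR hZOR hZE0 hZPR p M hS G χ z e ho η₀ hη hSB s n hn0 j hj
    (fun i i' hii g hg hSBg => by
      obtain ⟨h2, s', h3, h4⟩ := hjj i i' hii g hg
      exact h2 ((hL g).2 ⟨s', h3, h4, hSBg⟩)) X (fun ψ hψ => (hX ψ hψ).1)
    (fun ψ hψ i => hZGA p hp G m hm ψ (hX ψ hψ).2 z hP η₀ (j i) s (hj i) (hjs i))
  have h2 : (p : ℝ) ^ (2 * e) = (p : ℝ) ^ (f + 1) * ((p : ℝ) ^ e * (n : ℝ)) := by
    have h3 : (n : ℝ) * (p : ℝ) ^ f = (p : ℝ) ^ (e - 1) := by exact_mod_cast hn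
    calc (p : ℝ) ^ (2 * e) = (p : ℝ) ^ e * ((p : ℝ) * (p : ℝ) ^ (e - 1)) := by
          rw [← pow_succ', ← pow_add]
          congr 1
          omega
      _ = _ := by
          rw [← h3, pow_succ]
          ring
  rw [h2]
  calc (p : ℝ) ^ (f + 1) * ((p : ℝ) ^ e * (n : ℝ)) * ∑ ψ ∈ X, ‖az p (Cz (⊤ : Subgroup G) z) η₀ ψ (z ^ s)‖ ^ 2
      = (p : ℝ) ^ (f + 1) * ((p : ℝ) ^ e * ((n : ℝ) * ∑ ψ ∈ X, ‖az p (Cz (⊤ : Subgroup G) z) η₀ ψ (z ^ s)‖ ^ 2)) := by ring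
    _ ≤ (p : ℝ) ^ (f + 1) * 1 := mul_le_mul_of_nonneg_left h1 (by positivity)
    _ = _ := mul_one _

theorem WBX (hWEX : WEX_stmt) (hWPL : WPL_stmt) (hWL1 : WL1_stmt) (hWL2 : WL2_stmt) (hWNG : WNG_stmt) (hWBO : WBO_stmt) :
    WBX_stmt := by
  classical
  intro p M hS G _ _ χ hχ z x e q he hU m hm
  have hp : p.Prime := hS.pr
  have ho := hU.ord
  have hP : PEl p z := ⟨e, by rw [← ho]; exact pow_orderOf_eq_one z⟩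
  obtain ⟨η₀, hη, hSB, hne⟩ := hWEX p M hS G χ hχ z x hU.com hP hU.reg hU.unt
  obtain ⟨L, f, hL, hKL, hf, hfe⟩ := hWL1 p hp M G z e he ho η₀
  have hcj : ∀ l ∈ L, cjS l (Cz (⊤ : Subgroup G) z) = Cz (⊤ : Subgroup G) z := by
    intro l hl
    obtain ⟨s, hs, hlz, _⟩ := (hL l).1 hl
    have h1 : cjS l (Cz (⊤ : Subgroup G) z) = Cz (⊤ : Subgroup G) (l * z * l⁻¹) := by
      have h2 := cj_Cz l (⊤ : Subgroup G) z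
      rw [cj_top] at h2
      exact h2.symm
    rw [h1, hlz]
    refine ZBX_Cz z s ?_
    rw [ho]
    refine Nat.Coprime.pow_right e (((Nat.Prime.coprime_iff_not_dvd hp).2 fun h => ?_).symm)
    have h3 : p ∣ 1 := (Nat.ModEq.dvd_iff hs dvd_rfl).1 h
    exact hp.one_lt.ne' (Nat.dvd_one.1 h3)
  have hunit : ¬ InM M (cc η₀ (cls (⊤ : Subgroup G) (z * x))) := by
    intro h
    apply hU.unt
    obtain ⟨c, hc, h1⟩ := hSB (cls (⊤ : Subgroup G) (z * x)) (cls_CF (Subgroup.mem_top _)) (fun y => cls_int _ _ y)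
    have h2 : cc χ (cls (⊤ : Subgroup G) (z * x)) = cc η₀ (cls (⊤ : Subgroup G) (z * x)) - (c : ℂ) := by
      rw [← h1]; ring
    rw [h2]
    exact InM.sub hS h (⟨c, 1, hc, hS.one_not_mem, by simp⟩ : InM M (c : ℂ))
  obtain ⟨y, hyK, ⟨g, hg⟩, hy, hN⟩ := hWL2 p M hS G (Cz (⊤ : Subgroup G) z) L f hKL hcj hf η₀ hη
    (fun l hl => by obtain ⟨_, _, _, h⟩ := (hL l).1 hl; exact h) (z * x) hunit
  have hN' : p ^ f * pp p (Cz (Cz (⊤ : Subgroup G) z) y) ≤ q * p ^ e := le_trans hN hU.le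
  have hfin : (Bl M (⊤ : Subgroup G) χ).Finite := (IrrOn_fin (⊤ : Subgroup G)).subset fun ψ h => h.1
  have hXf : {ψ : G → ℂ | ψ ∈ Bl M (⊤ : Subgroup G) χ ∧ PR m ψ}.Finite := hfin.subset fun ψ h => h.1
  obtain ⟨X, hX⟩ := hXf.exists_finset_coe
  have hX' : ∀ ψ ∈ X, ψ ∈ Bl M (⊤ : Subgroup G) χ ∧ PR m ψ := fun ψ hψ => by
    have h : ψ ∈ {ψ : G → ℂ | ψ ∈ Bl M (⊤ : Subgroup G) χ ∧ PR m ψ} := by rw [← hX]; exact hψ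
    exact h
  have hcard : {ψ : G → ℂ | ψ ∈ Bl M (⊤ : Subgroup G) χ ∧ PR m ψ}.ncard = X.card := by
    rw [← hX, Set.ncard_coe_finset]
  rw [hcard]
  have hn : 0 < p ^ e := pow_pos hp.pos _
  obtain ⟨ζ, hζ⟩ : ∃ ζ : ℂ, IsPrimitiveRoot ζ (p ^ e) := ⟨_, Complex.isPrimitiveRoot_exp _ hn.ne'⟩
  have hpp0 : pp p (Cz (Cz (⊤ : Subgroup G) z) y) ≠ 0 := (pow_pos hp.pos _).ne'
  refine WBX_gen hWNG p hp G (Cz (⊤ : Subgroup G) z) z η₀ e f q _ p hN' X ?_ ζ hζ he ?_ ?_ hpp0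
  · intro s hs
    have h1 := hWBO p M hS G χ hχ z e f he ho η₀ hη hSB L hL hKL hf m hm s hs X hX'
    rw [pow_succ'] at h1
    exact h1
  · intro ψ hψ
    exact hWPL p M hS G z y hyK η₀ hη hy ψ (hX' ψ hψ).1.1 (p ^ e) hn (by rw [← ho]; exact pow_orderOf_eq_one z) ζ hζ
  · intro ψ hψ
    exact hne ψ (hX' ψ hψ).1

theorem BZN (hWBX : WBX_stmt) (hCNG : CNG_stmt) (hGM2 : GM2_stmt) (hLLN : LLN_stmt) (hTPR : Pool.Agent.FI.TPR_stmt) : BZN_stmt := by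
  intro p M hS hp2 G _ _ χ hχ z x e q he hU
  have hp : p.Prime := hS.pr
  obtain ⟨m, hm⟩ := hGM2 p (Nat.card G) hp hp2 Nat.card_pos
  obtain ⟨hIr, hI, -, -, -⟩ := hTPR p M hS G
  have hBl : Blk M χ (⊤ : Subgroup G) = Bl M (⊤ : Subgroup G) χ := by
    ext ψ
    exact ⟨fun h => ⟨h.1, (hI ψ χ).1 h.2⟩, fun h => ⟨h.1, (hI ψ χ).2 h.2⟩⟩
  have hne : (Blk M χ (⊤ : Subgroup G)).Nonempty := ⟨χ, by rw [hBl]; exact ⟨hχ, SB.refl _ _⟩⟩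
  obtain ⟨l, hl, hl1⟩ := hLLN p M hS G χ (⊤ : Subgroup G)
  obtain ⟨r, hr0, hr⟩ := hCNG p M hS G χ m hm.toGq
  have hX := hWBX p M hS G χ hχ z x e q he hU m hm
  refine ⟨l, hl, hl1 hne, ?_⟩
  rw [hl, hBl] at hr
  have h1 : (({ψ : G → ℂ | ψ ∈ Bl M (⊤ : Subgroup G) χ ∧ PR m ψ}.ncard : ℝ) : ℂ) = (((l : ℝ) + r : ℝ) : ℂ) := by
    push_cast
    exact hr
  have h2 : (({ψ : G → ℂ | ψ ∈ Bl M (⊤ : Subgroup G) χ ∧ PR m ψ}.ncard : ℝ)) = (l : ℝ) + r := Complex.ofReal_inj.1 h1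
  have h3 : (l : ℝ) ≤ ({ψ : G → ℂ | ψ ∈ Bl M (⊤ : Subgroup G) χ ∧ PR m ψ}.ncard : ℝ) := by
    rw [h2]; linarith
  have h4 : l ≤ {ψ : G → ℂ | ψ ∈ Bl M (⊤ : Subgroup G) χ ∧ PR m ψ}.ncard := by exact_mod_cast h3
  exact le_trans h4 hX

end Pool.Agent.LE
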