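import Pool.Agent.helper70.LZ.AllZ
import Pool.Agent.helper26.CNG.All
import Pool.Agent.helper95.LZ.WSM
import Pool.Agent.helper57.LZ.WTR
import Pool.Agent.helper88.LZ.WEX
import Pool.Agent.helper88.LZ.WZ4
import Pool.Agent.helper73.LZ.WZ5
import Pool.Agent.helper92.LZ.WPL
import Pool.Agent.helper72.LZ.WL1
import Pool.Agent.helper38.LZ.WL2
import Pool.Agent.helper36.LZ.WFM
import Pool.Agent.helper36.LZ.WNG
import Pool.Agent.helper70.LZ.WBX

/-!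
# Project LE/NA, block BOUND-ZN: all statements without hypotheses (helper70)

`wBZN : BZN_stmt` is the output: `l(B) ≤ p q ^ 2` for arbitrary defect groups.
-/

set_option autoImplicit false

namespace Pool.Agent.LE.AllW

open Pool.Agent Pool.Agent.helper58.DC Pool.Agent.DI Pool.Agent.GR Pool.Agent.OB Pool.Agent.DR Pool.Agent.FI Pool.Agent.FI3 Pool.Agent.FI4 Pool.Agent.LE Pool.Agent.LE.AllZ

theorem wWSM : WSM_stmt := LE.WSM AllA.dBRY AllA.dBLE AllQ1.qQEI AllA.dSTC GR.All.dB2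
theorem wWTR : WTR_stmt := LE.WTR
theorem wWEX : WEX_stmt := LE.WEX zZL1 wWTR wWSM
theorem wWZ4 : WZ4_stmt := LE.WZ4 GR.All.dC3 GR.All.dB2 GR.All.dCVF
theorem wWZ5 : WZ5_stmt := LE.WZ5 zZL2 zZL3 wWZ4
theorem wWPL : WPL_stmt := LE.WPL zZAX wWZ5 AllQ1.qQRS AllQ1.qQCE
theorem wWL1 : WL1_stmt := LE.WL1
theorem wWL2 : WL2_stmt := LE.WL2 GR.All.dB2
theorem wWFM : WFM_stmt := LE.WFM
theorem wWNG : WNG_stmt := LE.WNG zZNG
theorem wWBO : WBO_stmt := LE.WBO zZNR zZOR zZE0 zZPR zZGA wWFM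
theorem wWBX : WBX_stmt := LE.WBX wWEX wWPL wWL1 wWL2 wWNG wWBO
theorem wBZN : BZN_stmt := LE.BZN wWBX AllCNG.cCNG AllB.lGM2 AllK.kLLN AllA.dTPR

end Pool.Agent.LE.AllW
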